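import Pool.Agent.V7H48.SG.Embed
import Pool.Agent.V7H48.OD.Asym
import Pool.Agent.Results.MP_f6e9a2_nt.AlmostAllPrimes

/-!
# Statistics of patterns of Legendre symbols for arbitrary sets of integers and almost all primes
-/

set_option autoImplicit false

namespace Pool.Agent.V7H48.SG

open Finset Pool.Agent.N793.PG Pool.Agent.V7H48.SP

/-- prime divisors -/
theorem prime_divisors (n : ℤ) (hn : n ≠ 0) (S : Finset ℕ)
    (hS : ∀ p ∈ S, p.Prime ∧ (p : ℤ) ∣ n) : 2 ^ S.card ≤ n.natAbs := by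
  have h1 : ∏ p ∈ S, p ∣ n.natAbs := by
    refine Finset.prod_primes_dvd _ (fun p hp => (hS p hp).1.prime) fun p hp => ?_
    exact Int.natCast_dvd.1 (hS p hp).2
  calc 2 ^ S.card ≤ ∏ p ∈ S, p := by
        rw [← prod_const]
        exact prod_le_prod' fun p hp => (hS p hp).1.two_le
    _ ≤ n.natAbs := Nat.le_of_dvd (Int.natAbs_pos.2 hn) h1

/-- the number of the pairs of different elements of `A` whose difference is divisible by `p` -/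
noncomputable def coin (A : Finset ℤ) (p : ℕ) : ℕ :=
  ((A ×ˢ A).filter fun z => z.1 ≠ z.2 ∧ (p : ℤ) ∣ z.1 - z.2).card

/-- few primes with many coincidences -/
theorem few_coin (K : ℕ) : ∃ C : ℝ, 0 < C ∧ ∀ (Q : ℕ) (A : Finset ℤ), 1 ≤ Q →
    (∀ a ∈ A, |a| ≤ (Q : ℤ) ^ K) → ∀ (z : ℝ) (E : Finset ℕ), 0 < z →
      (∀ p ∈ E, p.Prime ∧ z * (A.card : ℝ) ^ 2 < coin A p) →
        (E.card : ℝ) ≤ C / z * (Q : ℝ) ^ ((1 : ℝ) / 4) := by
  refine ⟨2 * (1 + 4 * K), by positivity, fun Q A hQ hA z E hz hE => ?_⟩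
  have hQ0 : (0 : ℝ) < Q := by exact_mod_cast hQ
  have hQ1 : (1 : ℝ) ≤ Q := by exact_mod_cast hQ
  set C : ℝ := 2 * (1 + 4 * K) * (Q : ℝ) ^ ((1 : ℝ) / 4) with hC
  have hC0 : 0 < C := by positivity
  -- the sum over the primes
  have h1 : ∑ p ∈ E, (coin A p : ℝ) ≤ C * (A.card : ℝ) ^ 2 := by
    have h2 : ∀ p, (coin A p : ℝ) = ∑ w ∈ A ×ˢ A,
        if w.1 ≠ w.2 ∧ (p : ℤ) ∣ w.1 - w.2 then (1 : ℝ) else 0 := by
      intro p
      rw [coin, card_filter]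
      push_cast
      rfl
    simp only [h2]
    rw [sum_comm]
    have h3 : ∀ w ∈ A ×ˢ A, ∑ p ∈ E, (if w.1 ≠ w.2 ∧ (p : ℤ) ∣ w.1 - w.2 then (1 : ℝ) else 0) ≤
        C := by
      rintro ⟨a, b⟩ hw
      rw [mem_product] at hw
      by_cases hab : a = b
      · subst hab
        simp [hC0.le]
      have h4 : ∑ p ∈ E, (if a ≠ b ∧ (p : ℤ) ∣ a - b then (1 : ℝ) else 0) =
          ((E.filter fun p : ℕ => (p : ℤ) ∣ a - b).card : ℝ) := by
        rw [card_filter]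
        push_cast
        exact sum_congr rfl fun p _ => by simp [hab]
      simp only
      rw [h4]
      set S := E.filter fun p : ℕ => (p : ℤ) ∣ a - b with hS
      have h5 := prime_divisors (a - b) (sub_ne_zero.2 hab) S fun p hp => by
        rw [hS, mem_filter] at hp
        exact ⟨(hE p hp.1).1, hp.2⟩
      have h6 : ((a - b).natAbs : ℝ) ≤ 2 * (Q : ℝ) ^ K := by
        have h7 : |a - b| ≤ 2 * (Q : ℤ) ^ K := by
          calc |a - b| ≤ |a| + |b| := abs_sub _ _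
            _ ≤ (Q : ℤ) ^ K + (Q : ℤ) ^ K := add_le_add (hA a hw.1) (hA b hw.2)
            _ = _ := by ring
        have h8 : ((a - b).natAbs : ℝ) = ((|a - b| : ℤ) : ℝ) := Nat.cast_natAbs (a - b)
        rw [h8]
        exact_mod_cast h7
      have h7 : (2 : ℝ) ^ S.card ≤ 2 * (Q : ℝ) ^ K := by
        refine le_trans ?_ h6
        exact_mod_cast h5
      have h8 := Real.log_le_log (by positivity) h7
      rw [Real.log_pow, Real.log_mul (by norm_num) (by positivity), Real.log_pow] at h8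
      have h9 : Real.log Q ≤ (Q : ℝ) ^ ((1 : ℝ) / 4) / (1 / 4) :=
        Real.log_le_rpow_div hQ0.le (by norm_num)
      have h10 := Real.log_two_gt_d9
      have h11 := Real.log_two_lt_d9
      have h12 : (1 : ℝ) ≤ (Q : ℝ) ^ ((1 : ℝ) / 4) := Real.one_le_rpow hQ1 (by norm_num)
      have h13 : (S.card : ℝ) * (1 / 2) ≤ S.card * Real.log 2 :=
        mul_le_mul_of_nonneg_left (by linarith) (Nat.cast_nonneg _)
      have h14 : (K : ℝ) * Real.log Q ≤ K * ((Q : ℝ) ^ ((1 : ℝ) / 4) / (1 / 4)) :=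
        mul_le_mul_of_nonneg_left h9 (Nat.cast_nonneg _)
      rw [hC]
      have h15 : 2 * (1 + 4 * (K : ℝ)) * (Q : ℝ) ^ ((1 : ℝ) / 4) =
          2 * ((Q : ℝ) ^ ((1 : ℝ) / 4) + K * ((Q : ℝ) ^ ((1 : ℝ) / 4) / (1 / 4))) := by ring
      rw [h15]
      linarith
    refine (sum_le_sum h3).trans (le_of_eq ?_)
    rw [sum_const, card_product, nsmul_eq_mul]
    push_cast
    ring
  rcases A.eq_empty_or_nonempty with rfl | hne
  · have : E = ∅ := by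
      rw [eq_empty_iff_forall_notMem]
      intro p hp
      have := (hE p hp).2
      simp [coin] at this
    rw [this]
    simp
    positivity
  have hA0 : (0 : ℝ) < A.card := by exact_mod_cast hne.card_pos
  have h2 : (E.card : ℝ) * (z * (A.card : ℝ) ^ 2) ≤ C * (A.card : ℝ) ^ 2 := by
    refine le_trans ?_ h1
    rw [← nsmul_eq_mul]
    exact card_nsmul_le_sum _ _ _ fun p hp => (hE p hp).2.le
  have h3 : (E.card : ℝ) * z ≤ C := by
    have h4 : ((E.card : ℝ) * z) * (A.card : ℝ) ^ 2 ≤ C * (A.card : ℝ) ^ 2 := by linarith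
    exact le_of_mul_le_mul_right h4 (by positivity)
  calc (E.card : ℝ) ≤ C / z := by rwa [le_div_iff₀ hz]
    _ = _ := by rw [hC]; ring

theorem jk_root (p : ℕ) (a b : ℤ) : jk p a b = 0 ∨ jk p a b ^ 2 = 1 := by
  unfold jk
  rcases jacobiSym.trichotomy (a - b) p with h | h | h
  · left; rw [h]; simp
  · right; rw [h]; simp
  · right; rw [h]; simp

theorem jk_diag {p : ℕ} (hp : p.Prime) (a : ℤ) : jk p a a = 0 := by
  have : Fact p.Prime := ⟨hp⟩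
  unfold jk
  rw [sub_self, jacobiSym.zero_left hp.one_lt]
  simp

theorem jk_norm (p : ℕ) (a b : ℤ) : ‖jk p a b‖ ≤ 1 := by
  unfold jk
  rcases jacobiSym.trichotomy (a - b) p with h | h | h <;> rw [h] <;> simp

/-- zeros of the kernel -/
theorem jk_zeros {p : ℕ} (hp : p.Prime) (A A' : Finset ℤ) (hA : A' ⊆ A) :
    ∑ x ∈ A', (zr (jk p) A' x : ℝ) ≤ A'.card + coin A p := by
  classical
  have hzero : ∀ a b : ℤ, jk p a b = 0 → (p : ℤ) ∣ a - b := by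
    intro a b h
    have : Fact p.Prime := ⟨hp⟩
    unfold jk at h
    have h1 : jacobiSym (a - b) p = 0 := by exact_mod_cast h
    rw [← jacobiSym.legendreSym.to_jacobiSym p, legendreSym.eq_zero_iff] at h1
    rwa [← ZMod.intCast_zmod_eq_zero_iff_dvd] 
  have h1 : ∀ x ∈ A', (zr (jk p) A' x : ℝ) ≤
      1 + ((A'.filter fun a => a ≠ x ∧ (p : ℤ) ∣ a - x).card : ℝ) := by
    intro x hx
    have h2 : {a | a ∈ A' ∧ jk p a x = 0} ⊆
        ((insert x (A'.filter fun a => a ≠ x ∧ (p : ℤ) ∣ a - x) : Finset ℤ) : Set ℤ) := by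
      rintro a ⟨ha, h⟩
      rw [coe_insert, Set.mem_insert_iff]
      by_cases hax : a = x
      · exact Or.inl hax
      · exact Or.inr (by rw [mem_coe, mem_filter]; exact ⟨ha, hax, hzero a x h⟩)
    have h3 : zr (jk p) A' x ≤ (insert x (A'.filter fun a => a ≠ x ∧ (p : ℤ) ∣ a - x)).card := by
      rw [zr, ← Set.ncard_coe_finset]
      exact Set.ncard_le_ncard h2 (finite_toSet _)
    have h4 := h3.trans (card_insert_le _ _)
    have h5 : ((zr (jk p) A' x : ℕ) : ℝ) ≤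
        (((A'.filter fun a => a ≠ x ∧ (p : ℤ) ∣ a - x).card + 1 : ℕ) : ℝ) := by exact_mod_cast h4
    push_cast at h5
    linarith
  refine (sum_le_sum h1).trans ?_
  rw [sum_add_distrib, sum_const, nsmul_eq_mul, mul_one]
  refine add_le_add le_rfl ?_
  have h2 : ∑ x ∈ A', ((A'.filter fun a => a ≠ x ∧ (p : ℤ) ∣ a - x).card : ℝ) =
      (((A' ×ˢ A').filter fun z => z.1 ≠ z.2 ∧ (p : ℤ) ∣ z.1 - z.2).card : ℝ) := by
    simp only [card_filter]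
    push_cast
    rw [sum_product_right]
  rw [h2, coin]
  exact_mod_cast card_le_card (filter_subset_filter _ (product_subset_product hA hA))

/-- **Arbitrary sets of integers, almost all primes.** -/
theorem few_primes (K : ℕ) (ε : ℝ) (hε : 0 < ε) : ∃ δ : ℝ, 0 < δ ∧ ∃ Q₀ : ℕ,
    ∀ (Q : ℕ) (A : Finset ℤ), Q₀ ≤ Q → (∀ a ∈ A, |a| ≤ (Q : ℤ) ^ K) → (Q : ℝ) ^ ε ≤ A.card →
      ∃ E : Finset ℕ, (E.card : ℝ) ≤ (Q : ℝ) ^ (1 - δ) ∧
        ∀ p : ℕ, p.Prime → p ≠ 2 → p ≤ Q → p ∉ E →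
          ∀ A' ⊆ A, (Q : ℝ) ^ (-δ) * A.card ≤ A'.card → ∀ k : ℕ, (2 : ℝ) ^ k ≤ (Q : ℝ) ^ δ →
            Stat (jk p) A' 2 k ((Q : ℝ) ^ (-δ)) ∧ AllPatterns (jk p) A' 2 k := by
  classical
  obtain ⟨δ₀, hδ₀, Q₁, h⟩ := Pool.Agent.Results.MP_f6e9a2_nt.AlmostAllPrimes.result.2 K ε hε
  obtain ⟨C, hC, hcoin⟩ := few_coin K
  set γ : ℝ := min δ₀ (min ε 1) with hγ
  have hγ0 : 0 < γ := lt_min hδ₀ (lt_min hε one_pos)
  have hγδ : γ ≤ δ₀ := min_le_left _ _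
  have hγε : γ ≤ ε := (min_le_right _ _).trans (min_le_left _ _)
  have hγ1 : γ ≤ 1 := (min_le_right _ _).trans (min_le_right _ _)
  set δ : ℝ := γ / 24 with hδ
  have hδ0 : 0 < δ := by positivity
  obtain ⟨N₁, hN₁⟩ := large 2 (δ₀ - δ) (by rw [hδ]; linarith)
  obtain ⟨N₂, hN₂⟩ := large (2 * C) (1 / 8) (by norm_num)
  obtain ⟨N₃, hN₃⟩ := large 16 (γ / 2 - 2 * δ) (by rw [hδ]; linarith)
  obtain ⟨N₄, hN₄⟩ := large 16 (γ / 4 - 7 * δ / 2) (by rw [hδ]; linarith)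
  obtain ⟨N₅, hN₅⟩ := large 2049 (γ / 2 - 9 * δ) (by rw [hδ]; linarith)
  refine ⟨δ, hδ0, Q₁ + N₁ + N₂ + N₃ + N₄ + N₅ + 1, fun Q A hQ hA hcard => ?_⟩
  have hQ1 : 1 ≤ Q := by omega
  have hQr : (1 : ℝ) ≤ Q := by exact_mod_cast hQ1
  have hQ0 : (0 : ℝ) < Q := by linarith
  have mulpow : ∀ x y : ℝ, (Q : ℝ) ^ x * (Q : ℝ) ^ y = (Q : ℝ) ^ (x + y) := fun x y =>
    (Real.rpow_add hQ0 x y).symm
  have monopow : ∀ x y : ℝ, x ≤ y → (Q : ℝ) ^ x ≤ (Q : ℝ) ^ y := fun x y hxy =>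
    Real.rpow_le_rpow_of_exponent_le hQr hxy
  -- `large` gives bounds for large primes or integers
  have l1 : 2 ≤ (Q : ℝ) ^ (δ₀ - δ) := hN₁ Q (by omega)
  have l2 : 2 * C ≤ (Q : ℝ) ^ ((1 : ℝ) / 8) := hN₂ Q (by omega)
  have l3 : 16 ≤ (Q : ℝ) ^ (γ / 2 - 2 * δ) := hN₃ Q (by omega)
  have l4 : 16 ≤ (Q : ℝ) ^ (γ / 4 - 7 * δ / 2) := hN₄ Q (by omega)
  have l5 : 2049 ≤ (Q : ℝ) ^ (γ / 2 - 9 * δ) := hN₅ Q (by omega)
  have hneg : ∀ b ∈ A.image fun x => -x, |b| ≤ (Q : ℤ) ^ K := by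
    intro b hb
    obtain ⟨a, ha, rfl⟩ := mem_image.1 hb
    rw [abs_neg]
    exact hA a ha
  have hcneg : (A.image fun x => -x).card = A.card := card_image_of_injective _ neg_injective
  obtain ⟨E₁, hE₁, hgood⟩ := h Q A (A.image fun x => -x) (by omega) hA hneg hcard
    (by rw [hcneg]; exact hcard)
  set E₂ : Finset ℕ := (range (Q + 1)).filter fun p => p.Prime ∧
    (Q : ℝ) ^ (-(γ / 2)) * (A.card : ℝ) ^ 2 < coin A p with hE₂
  have hE₂c : (E₂.card : ℝ) ≤ C / (Q : ℝ) ^ (-(γ / 2)) * (Q : ℝ) ^ ((1 : ℝ) / 4) :=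
    hcoin Q A hQ1 hA _ E₂ (Real.rpow_pos_of_pos hQ0 _) fun p hp => by
      rw [hE₂, mem_filter] at hp
      exact hp.2
  refine ⟨E₁ ∪ E₂, ?_, ?_⟩
  · have h1 : ((E₁ ∪ E₂).card : ℝ) ≤ E₁.card + E₂.card := by exact_mod_cast card_union_le _ _
    have h2 : (E₁.card : ℝ) ≤ (Q : ℝ) ^ (1 - δ) / 2 := by
      rw [le_div_iff₀ (by norm_num)]
      calc (E₁.card : ℝ) * 2 ≤ (Q : ℝ) ^ (1 - δ₀) * (Q : ℝ) ^ (δ₀ - δ) := by gcongr
        _ = _ := by rw [mulpow]; congr 1; ring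
    have h3 : (E₂.card : ℝ) ≤ (Q : ℝ) ^ (1 - δ) / 2 := by
      rw [le_div_iff₀ (by norm_num)]
      calc (E₂.card : ℝ) * 2 ≤ (C / (Q : ℝ) ^ (-(γ / 2)) * (Q : ℝ) ^ ((1 : ℝ) / 4)) * 2 := by gcongr
        _ = (2 * C) * ((Q : ℝ) ^ (γ / 2) * (Q : ℝ) ^ ((1 : ℝ) / 4)) := by
            rw [Real.rpow_neg hQ0.le]
            field_simp
        _ ≤ (Q : ℝ) ^ ((1 : ℝ) / 8) * ((Q : ℝ) ^ (γ / 2) * (Q : ℝ) ^ ((1 : ℝ) / 4)) := by gcongr
        _ = (Q : ℝ) ^ ((1 : ℝ) / 8 + (γ / 2 + 1 / 4)) := by rw [mulpow, mulpow]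
        _ ≤ _ := monopow _ _ (by rw [hδ]; linarith)
    linarith
  intro p hp hp2 hpQ hpE A' hA' hcA' k hk
  rw [mem_union, not_or] at hpE
  have hA0 : (0 : ℝ) < A.card := (Real.rpow_pos_of_pos hQ0 _).trans_le hcard
  have hA'0 : (0 : ℝ) < A'.card := lt_of_lt_of_le (by positivity) hcA'
  have hA'ne : A'.Nonempty := card_pos.1 (by exact_mod_cast hA'0)
  have hAA' : (A.card : ℝ) ≤ (Q : ℝ) ^ δ * A'.card := by
    calc (A.card : ℝ) = (Q : ℝ) ^ δ * ((Q : ℝ) ^ (-δ) * A.card) := by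
          rw [← mul_assoc, mulpow]; simp
      _ ≤ _ := by gcongr
  set κ : ℝ := 16 * (Q : ℝ) ^ (-(γ / 2 - 2 * δ)) with hκ
  have hκ0 : 0 < κ := by positivity
  have hκ1 : κ ≤ 1 := by
    calc κ ≤ (Q : ℝ) ^ (γ / 2 - 2 * δ) * (Q : ℝ) ^ (-(γ / 2 - 2 * δ)) := by rw [hκ]; gcongr
      _ = 1 := by rw [mulpow]; simp
  -- double sums
  have hdouble : ∀ M ⊆ A', ∀ N ⊆ A', ‖∑ a ∈ M, ∑ b ∈ N, jk p a b‖ ≤
      (Q : ℝ) ^ (-(γ / 2 - 2 * δ)) * (A'.card : ℝ) ^ 2 := by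
    intro M hM N hN
    have h1 := hgood p hp hp2 hpQ hpE.1 M (hM.trans hA') (N.image fun x => -x)
      (image_subset_image (hN.trans hA'))
    rw [hcneg, card_image_of_injective _ neg_injective] at h1
    simp only [sum_image fun x _ y _ h => neg_injective h, ← sub_eq_add_neg] at h1
    have h2 : ‖∑ a ∈ M, ∑ b ∈ N, jk p a b‖ = |∑ a ∈ M, ∑ b ∈ N, (jacobiSym (a - b) p : ℝ)| := by
      have : ∑ a ∈ M, ∑ b ∈ N, jk p a b = ((∑ a ∈ M, ∑ b ∈ N, (jacobiSym (a - b) p : ℝ) : ℝ) : ℂ) := by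
        unfold jk
        push_cast
        rfl
      rw [this, Complex.norm_real, Real.norm_eq_abs]
    rw [h2]
    refine h1.trans ?_
    have h3 : (M.card : ℝ) ≤ A'.card := by exact_mod_cast card_le_card hM
    have h4 : (N.card : ℝ) ≤ A'.card := by exact_mod_cast card_le_card hN
    have h5 : Real.sqrt ((A.card : ℝ) * A.card * ((M.card : ℝ) * N.card)) ≤ A.card * A'.card := by
      rw [Real.sqrt_le_left (by positivity)]
      calc (A.card : ℝ) * A.card * ((M.card : ℝ) * N.card) ≤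
          (A.card : ℝ) * A.card * ((A'.card : ℝ) * A'.card) := by gcongr
        _ = _ := by ring
    calc (Q : ℝ) ^ (-δ₀) * Real.sqrt ((A.card : ℝ) * A.card * ((M.card : ℝ) * N.card)) ≤
        (Q : ℝ) ^ (-δ₀) * (((Q : ℝ) ^ δ * A'.card) * A'.card) := by
          refine mul_le_mul_of_nonneg_left (h5.trans ?_) (by positivity)
          gcongr
      _ = ((Q : ℝ) ^ (-δ₀) * (Q : ℝ) ^ δ) * (A'.card : ℝ) ^ 2 := by ring
      _ ≤ _ := by
          rw [mulpow]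
          refine mul_le_mul_of_nonneg_right (monopow _ _ ?_) (by positivity)
          rw [hδ]; linarith
  have H : ∀ j ∈ Ico 1 2, ∀ v : ℤ → ℂ, (∀ a, ‖v a‖ ≤ 1) →
      ∑ x ∈ A', ‖∑ a ∈ A', v a * jk p a x ^ j‖ ^ 2 ≤ κ * (A'.card : ℝ) ^ 2 * A'.card := by
    intro j hj v hv
    have hj1 : j = 1 := by have := mem_Ico.1 hj; omega
    subst hj1
    simp only [pow_one]
    refine (weights A' A' (jk p) (jk_norm p) _ hdouble v hv).trans (le_of_eq ?_)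
    rw [hκ]; ring
  have Z : ∑ x ∈ A', (zr (jk p) A' x : ℝ) ≤ κ * A'.card * A'.card := by
    refine (jk_zeros hp A A' hA').trans ?_
    have h1 : (coin A p : ℝ) ≤ (Q : ℝ) ^ (-(γ / 2)) * (A.card : ℝ) ^ 2 := by
      by_contra hlt
      exact hpE.2 (by
        rw [hE₂, mem_filter, mem_range]
        exact ⟨by omega, hp, not_le.1 hlt⟩)
    have h2 : (coin A p : ℝ) ≤ (Q : ℝ) ^ (-(γ / 2 - 2 * δ)) * (A'.card * A'.card) := by
      refine h1.trans ?_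
      calc (Q : ℝ) ^ (-(γ / 2)) * (A.card : ℝ) ^ 2 ≤
          (Q : ℝ) ^ (-(γ / 2)) * ((Q : ℝ) ^ δ * A'.card) ^ 2 := by gcongr
        _ = ((Q : ℝ) ^ (-(γ / 2)) * ((Q : ℝ) ^ δ * (Q : ℝ) ^ δ)) * (A'.card * A'.card) := by ring
        _ = _ := by rw [mulpow, mulpow]; congr 2; ring
    have h3 : (A'.card : ℝ) ≤ (Q : ℝ) ^ (-(γ / 2 - 2 * δ)) * (A'.card * A'.card) := by
      have h4 : (Q : ℝ) ^ (ε - δ) ≤ A'.card := by
        calc (Q : ℝ) ^ (ε - δ) = (Q : ℝ) ^ (-δ) * (Q : ℝ) ^ ε := by rw [mulpow]; congr 1; ring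
          _ ≤ (Q : ℝ) ^ (-δ) * A.card := by gcongr
          _ ≤ _ := hcA'
      calc (A'.card : ℝ) = 1 * A'.card := (one_mul _).symm
        _ = ((Q : ℝ) ^ (-(γ / 2 - 2 * δ)) * (Q : ℝ) ^ (γ / 2 - 2 * δ)) * A'.card := by
            rw [mulpow]; simp
        _ ≤ ((Q : ℝ) ^ (-(γ / 2 - 2 * δ)) * A'.card) * A'.card := by
            refine mul_le_mul_of_nonneg_right (mul_le_mul_of_nonneg_left ?_ (by positivity))
              (by positivity)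
            refine (monopow _ _ ?_).trans h4
            rw [hδ]; linarith
        _ = _ := by ring
    have h4 : 0 ≤ (Q : ℝ) ^ (-(γ / 2 - 2 * δ)) * (A'.card * A'.card) := by positivity
    calc (A'.card : ℝ) + coin A p ≤ 16 * ((Q : ℝ) ^ (-(γ / 2 - 2 * δ)) * (A'.card * A'.card)) := by
          linarith
      _ = _ := by rw [hκ]; ring
  have hkk : (k : ℝ) ≤ (Q : ℝ) ^ δ := by
    refine le_trans ?_ hk
    have h6 : k ≤ 2 ^ k := Nat.lt_two_pow_self.le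
    exact_mod_cast h6
  constructor
  · intro Φ hΦ
    refine (stat (jk p) A' le_rfl (jk_root p) hA'ne κ hκ0.le hκ1 H Z k Φ hΦ).trans ?_
    have hsq : Real.sqrt (((2 : ℕ) : ℝ) ^ k * κ) ≤ 4 * (Q : ℝ) ^ (3 * δ / 2 - γ / 4) := by
      rw [Real.sqrt_le_left (by positivity)]
      calc ((2 : ℕ) : ℝ) ^ k * κ ≤ (Q : ℝ) ^ δ * κ := by
            refine mul_le_mul_of_nonneg_right ?_ hκ0.le
            exact_mod_cast hk
        _ = 16 * ((Q : ℝ) ^ δ * (Q : ℝ) ^ (-(γ / 2 - 2 * δ))) := by rw [hκ]; ring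
        _ = (4 * (Q : ℝ) ^ (3 * δ / 2 - γ / 4)) ^ 2 := by
            rw [mul_pow, mulpow, ← Real.rpow_natCast ((Q : ℝ) ^ _), ← Real.rpow_mul hQ0.le]
            norm_num
            congr 1
            ring
    calc 4 * k * Real.sqrt (((2 : ℕ) : ℝ) ^ k * κ) ≤
        4 * (Q : ℝ) ^ δ * (4 * (Q : ℝ) ^ (3 * δ / 2 - γ / 4)) := by gcongr
      _ = 16 * ((Q : ℝ) ^ δ * (Q : ℝ) ^ (3 * δ / 2 - γ / 4)) := by ring
      _ ≤ (Q : ℝ) ^ (γ / 4 - 7 * δ / 2) * ((Q : ℝ) ^ δ * (Q : ℝ) ^ (3 * δ / 2 - γ / 4)) := by gcongr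
      _ = _ := by rw [mulpow, mulpow]; congr 1; ring
  · refine allPatterns (jk p) A' le_rfl (jk_root p) (jk_diag hp) hA'ne κ hκ0.le H Z k ?_
    have h43 : (2 * ((2 : ℕ) : ℝ)) ^ (3 * k) = ((2 : ℝ) ^ k) ^ 6 := by
      rw [← pow_mul, show (2 * ((2 : ℕ) : ℝ)) = (2 : ℝ) ^ 2 by norm_num, ← pow_mul]
      congr 1; ring
    rw [h43]
    have hpos : (0 : ℝ) < (Q : ℝ) ^ (-(γ / 2 - 9 * δ)) := by positivity
    calc 16 * (k : ℝ) * ((2 : ℕ) : ℝ) ^ 3 * ((2 : ℝ) ^ k) ^ 6 * κ ≤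
        16 * (Q : ℝ) ^ δ * ((2 : ℕ) : ℝ) ^ 3 * ((Q : ℝ) ^ δ) ^ 6 * κ := by gcongr
      _ = 2048 * (((Q : ℝ) ^ δ) ^ 7 * (Q : ℝ) ^ (-(γ / 2 - 2 * δ))) := by
          rw [hκ]; norm_num; ring
      _ = 2048 * (Q : ℝ) ^ (-(γ / 2 - 9 * δ)) := by
          rw [← Real.rpow_natCast ((Q : ℝ) ^ δ), ← Real.rpow_mul hQ0.le, mulpow]
          congr 2
          push_cast
          ring
      _ < 2049 * (Q : ℝ) ^ (-(γ / 2 - 9 * δ)) := mul_lt_mul_of_pos_right (by norm_num) hpos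
      _ ≤ (Q : ℝ) ^ (γ / 2 - 9 * δ) * (Q : ℝ) ^ (-(γ / 2 - 9 * δ)) := by gcongr
      _ = 1 := by rw [mulpow]; simp

end Pool.Agent.V7H48.SG
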