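import Pool.Agent.V7H48.SG.Second

/-!
# The converse: statistics of three points control the second moments
-/

set_option autoImplicit false

namespace Pool.Agent.V7H48.SG

open Finset Pool.Agent.N793.PG Pool.Agent.V7H48.SP

theorem sum_roots {m : ℕ} (hm : 2 ≤ m) : ∑ z ∈ Polynomial.nthRootsFinset m (1 : ℂ), z = 0 := by
  have hm0 : 0 < m := by omega
  set ζ : ℂ := Complex.exp (2 * Real.pi * Complex.I / m) with hζ
  have hprim : IsPrimitiveRoot ζ m := Complex.isPrimitiveRoot_exp m hm0.ne'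
  have hζ0 : ζ ≠ 0 := hprim.ne_zero hm0.ne'
  have h1 : ∑ z ∈ Polynomial.nthRootsFinset m (1 : ℂ), z =
      ∑ z ∈ Polynomial.nthRootsFinset m (1 : ℂ), ζ * z := by
    refine sum_nbij' (fun z => ζ⁻¹ * z) (fun z => ζ * z) ?_ ?_ ?_ ?_ ?_
    · intro z hz
      rw [Polynomial.mem_nthRootsFinset hm0] at hz ⊢
      rw [mul_pow, inv_pow, hprim.pow_eq_one, hz]; simp
    · intro z hz
      rw [Polynomial.mem_nthRootsFinset hm0] at hz ⊢
      rw [mul_pow, hprim.pow_eq_one, hz]; simp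
    · intro z _
      field_simp
    · intro z _
      field_simp
    · intro z _
      field_simp
  rw [← mul_sum] at h1
  have h2 : (1 - ζ) * ∑ z ∈ Polynomial.nthRootsFinset m (1 : ℂ), z = 0 := by
    linear_combination h1
  rcases mul_eq_zero.1 h2 with h3 | h3
  · exact absurd (sub_eq_zero.1 h3).symm (hprim.ne_one (by omega))
  · exact h3

theorem sum_Pat_two {m : ℕ} (hm : 2 ≤ m) :
    ∑ ρ ∈ Pat m 2, ρ 0 * (starRingEnd ℂ) (ρ 1) = 0 := by
  have h := prod_univ_sum (fun _ : Fin 2 => Polynomial.nthRootsFinset m (1 : ℂ))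
    (fun i z => if i = 0 then z else (starRingEnd ℂ) z)
  simp only [Fin.prod_univ_two, Fin.isValue, if_true, one_ne_zero, if_false] at h
  rw [Pat, ← h, sum_roots hm, zero_mul]

/-- the test function -/
noncomputable def test (σ : Fin 3 → Fin 3 → ℂ) : ℝ :=
  (1 + max (-1) (min 1 ((σ 0 1 * (starRingEnd ℂ) (σ 0 2)).re))) / 2

theorem test_mem (σ : Fin 3 → Fin 3 → ℂ) : 0 ≤ test σ ∧ test σ ≤ 1 := by
  unfold test
  have h1 := le_max_left (-1 : ℝ) (min 1 ((σ 0 1 * (starRingEnd ℂ) (σ 0 2)).re))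
  have h2 : max (-1 : ℝ) (min 1 ((σ 0 1 * (starRingEnd ℂ) (σ 0 2)).re)) ≤ 1 :=
    max_le (by norm_num) (min_le_left _ _)
  constructor <;> linarith

theorem test_eq (σ : Fin 3 → Fin 3 → ℂ) (h1 : ‖σ 0 1‖ ≤ 1) (h2 : ‖σ 0 2‖ ≤ 1) :
    test σ = (1 + (σ 0 1 * (starRingEnd ℂ) (σ 0 2)).re) / 2 := by
  have h3 : |(σ 0 1 * (starRingEnd ℂ) (σ 0 2)).re| ≤ 1 := by
    refine (Complex.abs_re_le_norm _).trans ?_
    rw [norm_mul, RCLike.norm_conj]
    exact mul_le_one₀ h1 (norm_nonneg _) h2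
  rw [abs_le] at h3
  rw [test, min_eq_right h3.2, max_eq_right h3.1]

theorem norm_root {m : ℕ} (hm : 0 < m) {z : ℂ} (hz : z = 0 ∨ z ^ m = 1) : ‖z‖ ≤ 1 := by
  rcases hz with rfl | hz
  · simp
  · exact (Complex.norm_eq_one_of_pow_eq_one hz hm.ne').le

theorem mean_test {m : ℕ} (hm : 2 ≤ m) :
    ∑ σ ∈ UP m 3, test σ = (m : ℝ) ^ (Nat.choose 3 2) / 2 := by
  have hm0 : 0 < m := by omega
  rw [sum_UP]
  have h1 : ∀ π ∈ UP m 2, ∑ ρ ∈ Pat m 2, test (cp ρ π) = (m : ℝ) ^ 2 / 2 := by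
    intro π _
    have h2 : ∀ ρ ∈ Pat m 2, test (cp ρ π) = 1 / 2 + (ρ 0 * (starRingEnd ℂ) (ρ 1)).re / 2 := by
      intro ρ hρ
      have h3 := (mem_Pat hm0 ρ).1 hρ
      have e1 : cp ρ π 0 1 = ρ 0 := rfl
      have e2 : cp ρ π 0 2 = ρ 1 := rfl
      rw [test_eq _ (by rw [e1]; exact norm_root hm0 (Or.inr (h3 0)))
        (by rw [e2]; exact norm_root hm0 (Or.inr (h3 1))), e1, e2]
      ring
    rw [sum_congr rfl h2, sum_add_distrib, sum_const, nsmul_eq_mul, card_Pat hm0, ← sum_div,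
      ← Complex.re_sum, sum_Pat_two hm]
    simp
    ring
  have hcard : ((UP m 2).card : ℝ) = m := by
    have h2 := sum_UP (m := m) (k := 1) (fun _ => (1 : ℝ))
    have h3 := sum_UP (m := m) (k := 0) (fun _ => (1 : ℝ))
    simp only [sum_const, nsmul_eq_mul, mul_one] at h2 h3
    have h4 : ((UP m 0).card : ℝ) = 1 := by
      have : UP m 0 = {fun i => i.elim0} := by
        ext a
        simp only [UP, mem_singleton, Fintype.mem_piFinset]
        exact ⟨fun _ => Subsingleton.elim _ _, fun _ i => i.elim0⟩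
      rw [this]; simp
    rw [h2, card_Pat hm0, h3, card_Pat hm0, h4]
    simp
  rw [sum_congr rfl h1, sum_const, nsmul_eq_mul, hcard]
  have : Nat.choose 3 2 = 3 := rfl
  rw [this]
  ring

/-- **Statistics of three points control the second moments.** -/
theorem second_of_stat {α : Type*} (c : α → α → ℂ) (A : Finset α) {m : ℕ} (hm : 2 ≤ m)
    (hc : ∀ a b, c a b = 0 ∨ c a b ^ m = 1) (hA : A.Nonempty) (τ : ℝ) (h : Stat c A m 3 τ) :
    ∑ x ∈ A, ‖∑ y ∈ A, c x y‖ ^ 2 ≤ 2 * τ * (A.card : ℝ) ^ 3 := by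
  classical
  have hA0 : (0 : ℝ) < A.card := by exact_mod_cast hA.card_pos
  have hm0 : 0 < m := by omega
  have hn : ∀ a b, ‖c a b‖ ≤ 1 := fun a b => norm_root hm0 (hc a b)
  have h1 := h test test_mem
  rw [mean_test hm] at h1
  have h2 : (m : ℝ) ^ (Nat.choose 3 2) / 2 / (m : ℝ) ^ (Nat.choose 3 2) = 1 / 2 := by
    have : (m : ℝ) ^ (Nat.choose 3 2) ≠ 0 := by positivity
    field_simp
  rw [h2] at h1
  set S : ℝ := ∑ x ∈ A, ‖∑ y ∈ A, c x y‖ ^ 2 with hS
  have h3 : ∑ a ∈ tup A 3, test (pat c a) = (A.card : ℝ) ^ 3 / 2 + S / 2 := by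
    rw [sum_tup, sum_tup, sum_tup]
    have h4 : tup A 0 = {Fin.elim0} := by
      ext a
      simp only [mem_singleton, Fintype.mem_piFinset]
      exact ⟨fun _ => Subsingleton.elim _ _, fun _ i => i.elim0⟩
    rw [h4, sum_singleton]
    have h5 : ∀ z y x : α, test (pat c (Fin.cons x (Fin.cons y (Fin.cons z Fin.elim0)))) =
        1 / 2 + (c x y * (starRingEnd ℂ) (c x z)).re / 2 := by
      intro z y x
      have e1 : pat c (Fin.cons x (Fin.cons y (Fin.cons z Fin.elim0)) : Fin 3 → α) 0 1 = c x y := rfl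
      have e2 : pat c (Fin.cons x (Fin.cons y (Fin.cons z Fin.elim0)) : Fin 3 → α) 0 2 = c x z := rfl
      rw [test_eq _ (by rw [e1]; exact hn _ _) (by rw [e2]; exact hn _ _), e1, e2]
      ring
    simp only [h5, sum_add_distrib]
    have h6 : ∑ z ∈ A, ∑ y ∈ A, ∑ x ∈ A, (1 / 2 : ℝ) = (A.card : ℝ) ^ 3 / 2 := by
      simp only [sum_const, nsmul_eq_mul]; ring
    have h7 : ∑ z ∈ A, ∑ y ∈ A, ∑ x ∈ A, (c x y * (starRingEnd ℂ) (c x z)).re / 2 = S / 2 := by
      simp only [← sum_div]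
      congr 1
      have h8 : ∀ x, ‖∑ y ∈ A, c x y‖ ^ 2 = ∑ z ∈ A, ∑ y ∈ A, (c x y * (starRingEnd ℂ) (c x z)).re := by
        intro x
        have h9 : ((‖∑ y ∈ A, c x y‖ ^ 2 : ℝ) : ℂ) =
            ∑ z ∈ A, ∑ y ∈ A, c x y * (starRingEnd ℂ) (c x z) := by
          rw [← Complex.normSq_eq_norm_sq, ← Complex.mul_conj, map_sum, sum_mul_sum, sum_comm]
        have h10 := congrArg Complex.re h9
        rw [Complex.ofReal_re] at h10
        rw [h10]
        simp only [Complex.re_sum]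
      rw [hS]
      simp only [h8]
      calc ∑ z ∈ A, ∑ y ∈ A, ∑ x ∈ A, (c x y * (starRingEnd ℂ) (c x z)).re =
          ∑ z ∈ A, ∑ x ∈ A, ∑ y ∈ A, (c x y * (starRingEnd ℂ) (c x z)).re :=
            sum_congr rfl fun z _ => sum_comm
        _ = _ := sum_comm
    rw [h6, h7]
  have h4 : (∑ a ∈ Fintype.piFinset fun _ : Fin 3 => A, test (pat c a)) / (A.card : ℝ) ^ 3 - 1 / 2 =
      S / (2 * (A.card : ℝ) ^ 3) := by
    have : ∑ a ∈ Fintype.piFinset fun _ : Fin 3 => A, test (pat c a) =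
        (A.card : ℝ) ^ 3 / 2 + S / 2 := h3
    rw [this]
    have : (A.card : ℝ) ≠ 0 := hA0.ne'
    field_simp
    ring
  rw [h4] at h1
  have h5 := (le_abs_self _).trans h1
  rw [div_le_iff₀ (by positivity)] at h5
  linarith

variable {F : ∀ p : ℕ, MulChar (ZMod p) ℂ → Prop}

/-- statistics of patterns control the second moments, for characters of bounded order -/
theorem second_of_statSaves {n : ℕ} (hn : 0 < n) {ε δ θ : ℝ} (hδ : 0 < δ) (hθ : θ < δ)
    (hF : ∀ (p : ℕ) (χ : MulChar (ZMod p) ℂ), F p χ → χ ^ n = 1) (h : StatSaves F ε δ) :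
    SecondSaves F ε θ := by
  obtain ⟨p₀, h⟩ := h
  obtain ⟨p₁, hp₁⟩ := large ((n : ℝ) ^ 3) δ hδ
  obtain ⟨p₂, hp₂⟩ := large 2 (δ - θ) (by linarith)
  refine ⟨p₀ + p₁ + p₂, fun p hp hlt A hA χ hχ hFχ => ?_⟩
  have : Fact p.Prime := ⟨hp⟩
  have hp0 : (0 : ℝ) < p := by exact_mod_cast hp.pos
  have hA0 : (0 : ℝ) < A.card := (Real.rpow_pos_of_pos hp0 _).trans hA
  have hA1 : A.Nonempty := card_pos.1 (by exact_mod_cast hA0)
  have hm := two_le_order χ hχ
  have hmn : orderOf χ ≤ n := orderOf_le_of_pow_eq_one hn (hF p χ hFχ)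
  have h1 : (orderOf χ : ℝ) ^ 3 ≤ (p : ℝ) ^ δ := by
    refine le_trans ?_ (hp₁ p (by omega))
    gcongr
  have h2 := second_of_stat (dk χ) A hm (dk_root χ) hA1 _ (h p hp (by omega) A hA χ hχ hFχ 3 h1)
  refine h2.trans (mul_le_mul_of_nonneg_right ?_ (by positivity))
  calc 2 * (p : ℝ) ^ (-δ) ≤ (p : ℝ) ^ (δ - θ) * (p : ℝ) ^ (-δ) :=
        mul_le_mul_of_nonneg_right (hp₂ p (by omega)) (by positivity)
    _ = _ := by rw [← Real.rpow_add hp0]; congr 1; ring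

end Pool.Agent.V7H48.SG
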