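import Mathlib

/-!
# Statistics of induced patterns: definitions
-/

set_option autoImplicit false

namespace Pool.Agent.V7H48.SG

open Finset

variable {α : Type*}

/-- the pattern of the tuple `a`: the values `c (a i) (a j)` for `i < j` -/
def pat (c : α → α → ℂ) {k : ℕ} (a : Fin k → α) : Fin k → Fin k → ℂ :=
  fun i j => if i < j then c (a i) (a j) else 1

/-- all patterns on `k` points: an `m`-th root of unity for every pair `i < j` (and the entries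
`1` for the other pairs) -/
noncomputable def UP (m k : ℕ) : Finset (Fin k → Fin k → ℂ) :=
  Fintype.piFinset fun i => Fintype.piFinset fun j =>
    if i < j then Polynomial.nthRootsFinset m (1 : ℂ) else {1}

/-- The pattern of `k` random elements of `A` is, up to `τ` in total variation, a random pattern:
the mean of each function `Φ` of the pattern, with values in `[0, 1]`, over all tuples in `A ^ k`
differs from its mean over all patterns by at most `τ`. -/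
def Stat (c : α → α → ℂ) (A : Finset α) (m k : ℕ) (τ : ℝ) : Prop :=
  ∀ Φ : (Fin k → Fin k → ℂ) → ℝ, (∀ σ, 0 ≤ Φ σ ∧ Φ σ ≤ 1) →
    |(∑ a ∈ Fintype.piFinset fun _ : Fin k => A, Φ (pat c a)) / (A.card : ℝ) ^ k -
      (∑ σ ∈ UP m k, Φ σ) / (m : ℝ) ^ (k.choose 2)| ≤ τ

/-- Every pattern on `k` points is the pattern of `k` different elements of `A`. -/
def AllPatterns (c : α → α → ℂ) (A : Finset α) (m k : ℕ) : Prop :=
  ∀ σ : Fin k → Fin k → ℂ, (∀ i j, i < j → σ i j ^ m = 1) →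
    ∃ a : Fin k → α, Function.Injective a ∧ (∀ i, a i ∈ A) ∧
      ∀ i j, i < j → c (a i) (a j) = σ i j

/-- the kernel `χ (a - b)` -/
noncomputable def dk {p : ℕ} (χ : MulChar (ZMod p) ℂ) : ZMod p → ZMod p → ℂ := fun a b => χ (a - b)

/-- the kernel `(a - b | p)` (Legendre symbols) on the integers -/
noncomputable def jk (p : ℕ) : ℤ → ℤ → ℂ := fun a b => (jacobiSym (a - b) p : ℂ)

/-- Second moments over one set: `∑ a ∈ A, |∑ b ∈ A, χ (a - b)| ^ 2 ≤ p ^ (-δ) |A| ^ 3` for all large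
primes, all sets `A` with more than `p ^ ε` elements and the nontrivial characters in `F`. -/
def SecondSaves (F : ∀ p : ℕ, MulChar (ZMod p) ℂ → Prop) (ε δ : ℝ) : Prop :=
  ∃ p₀ : ℕ, ∀ p : ℕ, p.Prime → p₀ < p → ∀ A : Finset (ZMod p), (p : ℝ) ^ ε < (A.card : ℝ) →
    ∀ χ : MulChar (ZMod p) ℂ, χ ≠ 1 → F p χ →
      ∑ a ∈ A, ‖∑ b ∈ A, χ (a - b)‖ ^ 2 ≤ (p : ℝ) ^ (-δ) * (A.card : ℝ) ^ 3

/-- With `m` the order of the character: for all `k` with `m ^ k ≤ p ^ δ` the pattern of the values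
`χ (a i - a j)`, `i < j`, of `k` random elements of `A` is random up to `p ^ (-δ)` in total
variation. -/
def StatSaves (F : ∀ p : ℕ, MulChar (ZMod p) ℂ → Prop) (ε δ : ℝ) : Prop :=
  ∃ p₀ : ℕ, ∀ p : ℕ, p.Prime → p₀ < p → ∀ A : Finset (ZMod p), (p : ℝ) ^ ε < (A.card : ℝ) →
    ∀ χ : MulChar (ZMod p) ℂ, χ ≠ 1 → F p χ → ∀ k : ℕ, (orderOf χ : ℝ) ^ k ≤ (p : ℝ) ^ δ →
      Stat (dk χ) A (orderOf χ) k ((p : ℝ) ^ (-δ))

/-- for all `k` with `m ^ k ≤ p ^ δ` every pattern on `k` points occurs in `A` -/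
def PatternSaves (F : ∀ p : ℕ, MulChar (ZMod p) ℂ → Prop) (ε δ : ℝ) : Prop :=
  ∃ p₀ : ℕ, ∀ p : ℕ, p.Prime → p₀ < p → ∀ A : Finset (ZMod p), (p : ℝ) ^ ε < (A.card : ℝ) →
    ∀ χ : MulChar (ZMod p) ℂ, χ ≠ 1 → F p χ → ∀ k : ℕ, (orderOf χ : ℝ) ^ k ≤ (p : ℝ) ^ δ →
      AllPatterns (dk χ) A (orderOf χ) k

/-- the number of the triples `(x, y, z)` of elements of `A` with
`χ (x - y) = χ (y - z) = χ (z - x) = 1` -/
noncomputable def cyc {p : ℕ} (χ : MulChar (ZMod p) ℂ) (A : Finset (ZMod p)) : ℕ :=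
  Set.ncard {t : ZMod p × ZMod p × ZMod p | (t.1 ∈ A ∧ t.2.1 ∈ A ∧ t.2.2 ∈ A) ∧
    χ (t.1 - t.2.1) = 1 ∧ χ (t.2.1 - t.2.2) = 1 ∧ χ (t.2.2 - t.1) = 1}

/-- The number of these triples is at least `(1 - p ^ (-δ)) |A| ^ 3 / 8`. -/
def CycSaves (F : ∀ p : ℕ, MulChar (ZMod p) ℂ → Prop) (ε δ : ℝ) : Prop :=
  ∃ p₀ : ℕ, ∀ p : ℕ, p.Prime → p₀ < p → ∀ A : Finset (ZMod p), (p : ℝ) ^ ε < (A.card : ℝ) →
    ∀ χ : MulChar (ZMod p) ℂ, χ ≠ 1 → F p χ →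
      (1 - (p : ℝ) ^ (-δ)) * (A.card : ℝ) ^ 3 / 8 ≤ (cyc χ A : ℝ)

/-- Q1 of the page for the characters in `F`, above the exponent `α` -/
def Q1For (F : ∀ p : ℕ, MulChar (ZMod p) ℂ → Prop) (α : ℝ) : Prop :=
  ∀ δ : ℝ, α < δ → ∃ τ : ℝ, 0 < τ ∧ ∃ P : ℕ, ∀ p : ℕ, p.Prime → P ≤ p →
    ∀ A : Finset (ZMod p), (p : ℝ) ^ δ < (A.card : ℝ) →
      ∀ χ : MulChar (ZMod p) ℂ, χ ≠ 1 → F p χ →
        ‖∑ a ∈ A, ∑ b ∈ A, χ (a - b)‖ < (A.card : ℝ) ^ (2 - τ)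

/-- sums over two sets: the saving `p ^ (-δ)` for all large primes, all sets `A`, `B` with more than
`p ^ ε` elements and the nontrivial characters in `F` -/
def TwoSaves (F : ∀ p : ℕ, MulChar (ZMod p) ℂ → Prop) (ε δ : ℝ) : Prop :=
  ∃ p₀ : ℕ, ∀ p : ℕ, p.Prime → p₀ < p → ∀ A B : Finset (ZMod p),
    (p : ℝ) ^ ε < (A.card : ℝ) → (p : ℝ) ^ ε < (B.card : ℝ) →
      ∀ χ : MulChar (ZMod p) ℂ, χ ≠ 1 → F p χ →
        ‖∑ a ∈ A, ∑ b ∈ B, χ (a + b)‖ ≤ (p : ℝ) ^ (-δ) * (A.card : ℝ) * (B.card : ℝ)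

/-- For every `ε > α` there is `δ > 0` with the saving `S ε δ`. -/
def Above (S : ℝ → ℝ → Prop) (α : ℝ) : Prop := ∀ ε : ℝ, α < ε → ∃ δ : ℝ, 0 < δ ∧ S ε δ

/-- the family is closed under nontrivial powers -/
def PowerClosed (F : ∀ p : ℕ, MulChar (ZMod p) ℂ → Prop) : Prop :=
  ∀ (p : ℕ) (χ : MulChar (ZMod p) ℂ) (j : ℕ), F p χ → χ ^ j ≠ 1 → F p (χ ^ j)

end Pool.Agent.V7H48.SG
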