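import Pool.Agent.V7H48.SG.Stat

/-!
# All patterns on logarithmically many points
-/

set_option autoImplicit false

namespace Pool.Agent.V7H48.SG

open Finset Pool.Agent.V7H48.SP

variable {α : Type*}

/-- the choice of one point -/
theorem step (c : α → α → ℂ) (A : Finset α) {m : ℕ} (hm : 2 ≤ m)
    (hc : ∀ a b, c a b = 0 ∨ c a b ^ m = 1) (κ : ℝ) (hκ : 0 ≤ κ)
    (H : ∀ j ∈ Ico 1 m, ∀ v : α → ℂ, (∀ a, ‖v a‖ ≤ 1) →
      ∑ x ∈ A, ‖∑ a ∈ A, v a * c a x ^ j‖ ^ 2 ≤ κ * (A.card : ℝ) ^ 2 * A.card)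
    (Z : ∑ x ∈ A, (zr c A x : ℝ) ≤ κ * A.card * A.card) {k : ℕ} (X : Finset α) (hX : X ⊆ A)
    (Y : Fin k → Finset α) (hY : ∀ i, Y i ⊆ A) (S : ℝ) (hS : 0 < S) (hXS : S ≤ X.card)
    (hYS : ∀ i, S ≤ (Y i).card) (hcond : 16 * k * (m : ℝ) ^ 3 * κ * (A.card : ℝ) ^ 3 < S ^ 3)
    (ζ : Fin k → ℂ) (hζ : ∀ i, ζ i ^ m = 1) :
    ∃ x ∈ X, ∀ i, ((Y i).card : ℝ) / (2 * m) ≤ Set.ncard {a | a ∈ Y i ∧ c a x = ζ i} := by
  classical
  have hm0 : (0 : ℝ) < m := by exact_mod_cast (by omega : 0 < m)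
  have hmr : (2 : ℝ) ≤ m := by exact_mod_cast hm
  have hY0 : ∀ i, (0 : ℝ) < (Y i).card := fun i => hS.trans_le (hYS i)
  have hSA : S ≤ A.card := hXS.trans (by exact_mod_cast card_le_card hX)
  have hA0 : (0 : ℝ) < A.card := hS.trans_le hSA
  let g : Fin k → α → ℝ := fun i x => ∑ l ∈ Ico 1 m, ‖∑ a ∈ Y i, c a x ^ l‖ ^ 2 *
    (4 * m / (Y i).card : ℝ) ^ 2 +
      (((Y i).filter fun a => c a x = 0).card : ℝ) * (8 / (Y i).card : ℝ)
  have hsum : ∑ x ∈ X, ∑ i, g i x < ∑ x ∈ X, (1 : ℝ) := by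
    have h1 : ∀ i, ∑ x ∈ X, g i x ≤ 16 * (m : ℝ) ^ 3 * κ * (A.card : ℝ) ^ 3 / S ^ 2 := by
      intro i
      simp only [g]
      rw [sum_add_distrib]
      have h2 : ∑ x ∈ X, ∑ l ∈ Ico 1 m, ‖∑ a ∈ Y i, c a x ^ l‖ ^ 2 * (4 * m / (Y i).card) ^ 2 ≤
          (m - 1) * (κ * (A.card : ℝ) ^ 3 * (16 * (m : ℝ) ^ 2 / S ^ 2)) := by
        rw [sum_comm]
        have h3 : ∀ l ∈ Ico 1 m, ∑ x ∈ X, ‖∑ a ∈ Y i, c a x ^ l‖ ^ 2 * (4 * m / (Y i).card) ^ 2 ≤
            κ * (A.card : ℝ) ^ 3 * (16 * (m : ℝ) ^ 2 / S ^ 2) := by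
          intro l hl
          rw [← sum_mul]
          have h4 := H l hl (fun a => if a ∈ Y i then 1 else 0) fun a => by split_ifs <;> simp
          have h5 : ∀ x, ∑ a ∈ A, (if a ∈ Y i then (1 : ℂ) else 0) * c a x ^ l =
              ∑ a ∈ Y i, c a x ^ l := by
            intro x
            simp only [ite_mul, one_mul, zero_mul]
            rw [← sum_filter, filter_mem_eq_inter, inter_eq_right.2 (hY i)]
          simp only [h5] at h4
          have h6 : ∑ x ∈ X, ‖∑ a ∈ Y i, c a x ^ l‖ ^ 2 ≤ κ * (A.card : ℝ) ^ 3 := by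
            calc _ ≤ ∑ x ∈ A, ‖∑ a ∈ Y i, c a x ^ l‖ ^ 2 :=
                  sum_le_sum_of_subset_of_nonneg hX fun _ _ _ => sq_nonneg _
              _ ≤ _ := h4
              _ = _ := by ring
          have h7 : (4 * m / (Y i).card : ℝ) ^ 2 ≤ 16 * (m : ℝ) ^ 2 / S ^ 2 := by
            have : (4 * m / (Y i).card : ℝ) ≤ 4 * m / S := by
              exact div_le_div_of_nonneg_left (by positivity) hS (hYS i)
            calc (4 * m / (Y i).card : ℝ) ^ 2 ≤ (4 * m / S) ^ 2 :=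
                  pow_le_pow_left₀ (by positivity) this 2
              _ = _ := by rw [div_pow]; ring
          exact mul_le_mul h6 h7 (sq_nonneg _) (by positivity)
        calc _ ≤ ∑ l ∈ Ico 1 m, κ * (A.card : ℝ) ^ 3 * (16 * (m : ℝ) ^ 2 / S ^ 2) := sum_le_sum h3
          _ = _ := by
            rw [sum_const, nsmul_eq_mul, Nat.card_Ico, Nat.cast_sub (by omega)]
            push_cast
            ring
      have h3 : ∑ x ∈ X, (((Y i).filter fun a => c a x = 0).card : ℝ) * (8 / (Y i).card : ℝ) ≤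
          κ * (A.card : ℝ) ^ 2 * (8 / S) := by
        rw [← sum_mul]
        have h4 : ∑ x ∈ X, (((Y i).filter fun a => c a x = 0).card : ℝ) ≤ κ * (A.card : ℝ) ^ 2 := by
          calc _ ≤ ∑ x ∈ A, (((Y i).filter fun a => c a x = 0).card : ℝ) :=
                sum_le_sum_of_subset_of_nonneg hX fun _ _ _ => Nat.cast_nonneg _
            _ ≤ ∑ x ∈ A, (zr c A x : ℝ) := by
                refine sum_le_sum fun x _ => ?_
                rw [zr, ← Set.ncard_coe_finset]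
                refine Nat.cast_le.2 (Set.ncard_le_ncard ?_ ((finite_toSet A).subset fun a h => h.1))
                intro a ha
                rw [mem_coe, mem_filter] at ha
                exact ⟨hY i ha.1, ha.2⟩
            _ ≤ _ := Z
            _ = _ := by ring
        exact mul_le_mul h4 (div_le_div_of_nonneg_left (by norm_num) hS (hYS i)) (by positivity)
          (by positivity)
      calc _ ≤ (m - 1) * (κ * (A.card : ℝ) ^ 3 * (16 * (m : ℝ) ^ 2 / S ^ 2)) +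
            κ * (A.card : ℝ) ^ 2 * (8 / S) := add_le_add h2 h3
        _ ≤ (m - 1) * (κ * (A.card : ℝ) ^ 3 * (16 * (m : ℝ) ^ 2 / S ^ 2)) +
            κ * (A.card : ℝ) ^ 3 * (16 * (m : ℝ) ^ 2 / S ^ 2) := by
            refine add_le_add le_rfl ?_
            have h4 : 8 / S ≤ A.card * (16 * (m : ℝ) ^ 2 / S ^ 2) := by
              rw [mul_div_assoc', div_le_div_iff₀ hS (by positivity)]
              have h5 : S * S ≤ A.card * S := mul_le_mul_of_nonneg_right hSA hS.le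
              have h6 : (8 : ℝ) ≤ 16 * (m : ℝ) ^ 2 := by nlinarith
              calc 8 * S ^ 2 ≤ (16 * (m : ℝ) ^ 2) * (A.card * S) := by
                    rw [sq]; gcongr
                _ = _ := by ring
            calc κ * (A.card : ℝ) ^ 2 * (8 / S) ≤
                κ * (A.card : ℝ) ^ 2 * (A.card * (16 * (m : ℝ) ^ 2 / S ^ 2)) := by gcongr
              _ = _ := by ring
        _ = _ := by ring
    calc ∑ x ∈ X, ∑ i, g i x = ∑ i, ∑ x ∈ X, g i x := sum_comm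
      _ ≤ ∑ _i : Fin k, 16 * (m : ℝ) ^ 3 * κ * (A.card : ℝ) ^ 3 / S ^ 2 :=
          sum_le_sum fun i _ => h1 i
      _ = (16 * k * (m : ℝ) ^ 3 * κ * (A.card : ℝ) ^ 3) / S ^ 2 := by
          rw [sum_const, card_univ, Fintype.card_fin, nsmul_eq_mul]; ring
      _ < S := by
          rw [div_lt_iff₀ (by positivity)]
          calc _ < S ^ 3 := hcond
            _ = _ := by ring
      _ ≤ ∑ x ∈ X, (1 : ℝ) := by simpa using hXS
  obtain ⟨x, hx, hfx⟩ := exists_lt_of_sum_lt hsum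
  refine ⟨x, hx, fun i => ?_⟩
  have hnn : ∀ i ∈ (univ : Finset (Fin k)), 0 ≤ g i x := fun i _ => by
    simp only [g]; positivity
  have h1 : ∑ l ∈ Ico 1 m, ‖∑ a ∈ Y i, c a x ^ l‖ ^ 2 * (4 * m / (Y i).card : ℝ) ^ 2 +
      (((Y i).filter fun a => c a x = 0).card : ℝ) * (8 / (Y i).card : ℝ) < 1 :=
    (single_le_sum hnn (mem_univ i)).trans_lt hfx
  have hYi := hY0 i
  have h2 : 0 ≤ ∑ l ∈ Ico 1 m, ‖∑ a ∈ Y i, c a x ^ l‖ ^ 2 * (4 * m / (Y i).card : ℝ) ^ 2 := by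
    positivity
  have h3 : (((Y i).filter fun a => c a x = 0).card : ℝ) ≤ (Y i).card / 8 := by
    have h4 : (((Y i).filter fun a => c a x = 0).card : ℝ) * (8 / (Y i).card : ℝ) < 1 := by linarith
    rw [mul_div_assoc', div_lt_one hYi] at h4
    linarith
  have h4 : ∀ l ∈ Ico 1 m, ‖∑ a ∈ Y i, c a x ^ l‖ ≤ (Y i).card / (4 * m) := by
    intro l hl
    have h5 : ‖∑ a ∈ Y i, c a x ^ l‖ ^ 2 * (4 * m / (Y i).card : ℝ) ^ 2 < 1 := by
      have h6 := single_le_sum (s := Ico 1 m) (f := fun l => ‖∑ a ∈ Y i, c a x ^ l‖ ^ 2 *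
        (4 * m / (Y i).card : ℝ) ^ 2) (fun l _ => by positivity) hl
      have h7 : 0 ≤ (((Y i).filter fun a => c a x = 0).card : ℝ) * (8 / (Y i).card : ℝ) := by
        positivity
      linarith
    rw [← mul_pow] at h5
    have h6 : ‖∑ a ∈ Y i, c a x ^ l‖ * (4 * m / (Y i).card : ℝ) < 1 := by
      by_contra hcon
      push Not at hcon
      have := one_le_pow₀ hcon (n := 2)
      linarith
    rw [mul_div_assoc', div_lt_one hYi] at h6
    rw [le_div_iff₀ (by positivity)]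
    exact h6.le
  -- counting by orthogonality
  set N : ℝ := (((Y i).filter fun a => c a x = ζ i).card : ℝ) with hN
  have hζ0 : ζ i ≠ 0 := by
    intro h0
    have := hζ i
    rw [h0, zero_pow (by omega : m ≠ 0)] at this
    exact zero_ne_one this
  have h5 : (m : ℂ) * N = ∑ l ∈ Icc 1 m, (starRingEnd ℂ) (ζ i) ^ l * ∑ a ∈ Y i, c a x ^ l := by
    have h6 : ∀ a ∈ Y i, ∑ l ∈ Icc 1 m, (c a x * (starRingEnd ℂ) (ζ i)) ^ l =
        m * if c a x = ζ i then 1 else 0 := by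
      intro a _
      rw [orth (by omega) _ _ (hc a x) (Or.inr (hζ i))]
      congr 1
      refine if_congr ⟨fun h => h.1, fun h => ⟨h, ?_⟩⟩ rfl rfl
      rw [h]; exact hζ0
    have h7 : (m : ℂ) * N = ∑ a ∈ Y i, ∑ l ∈ Icc 1 m, (c a x * (starRingEnd ℂ) (ζ i)) ^ l := by
      rw [sum_congr rfl h6, ← mul_sum, sum_boole, hN]
      push_cast
      rfl
    rw [h7, sum_comm]
    refine sum_congr rfl fun l _ => ?_
    rw [mul_sum]
    refine sum_congr rfl fun a _ => ?_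
    rw [mul_pow, mul_comm]
  have h6 : ∑ l ∈ Icc 1 m, (starRingEnd ℂ) (ζ i) ^ l * ∑ a ∈ Y i, c a x ^ l =
      ∑ l ∈ Ico 1 m, (starRingEnd ℂ) (ζ i) ^ l * ∑ a ∈ Y i, c a x ^ l +
        (((Y i).card : ℝ) - ((Y i).filter fun a => c a x = 0).card : ℝ) := by
    have h7 : Icc 1 m = insert m (Ico 1 m) := by
      ext l; simp only [mem_Icc, mem_insert, mem_Ico]; omega
    rw [h7, sum_insert (by simp), add_comm]
    congr 1
    rw [← map_pow, hζ i, map_one, one_mul]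
    have h8 : ∀ a ∈ Y i, c a x ^ m = if c a x = 0 then (0 : ℂ) else 1 := by
      intro a _
      split_ifs with h
      · rw [h, zero_pow (by omega)]
      · exact (hc a x).resolve_left h
    rw [sum_congr rfl h8]
    have h9 : ∀ a ∈ Y i, (if c a x = 0 then (0 : ℂ) else 1) = 1 - if c a x = 0 then (1 : ℂ) else 0 := by
      intro a _
      split_ifs <;> simp
    rw [sum_congr rfl h9, sum_sub_distrib, sum_boole]
    simp
  have h7 : ‖∑ l ∈ Ico 1 m, (starRingEnd ℂ) (ζ i) ^ l * ∑ a ∈ Y i, c a x ^ l‖ ≤ (Y i).card / 4 := by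
    have hz1 : ‖ζ i‖ = 1 := Complex.norm_eq_one_of_pow_eq_one (hζ i) (by omega)
    calc _ ≤ ∑ l ∈ Ico 1 m, ‖(starRingEnd ℂ) (ζ i) ^ l * ∑ a ∈ Y i, c a x ^ l‖ := norm_sum_le _ _
      _ ≤ ∑ l ∈ Ico 1 m, ((Y i).card / (4 * m) : ℝ) := by
          refine sum_le_sum fun l hl => ?_
          rw [norm_mul, norm_pow, RCLike.norm_conj, hz1, one_pow, one_mul]
          exact h4 l hl
      _ = (m - 1) * ((Y i).card / (4 * m) : ℝ) := by
          rw [sum_const, nsmul_eq_mul, Nat.card_Ico, Nat.cast_sub (by omega)]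
          push_cast
          ring
      _ ≤ m * ((Y i).card / (4 * m) : ℝ) := by
          refine mul_le_mul_of_nonneg_right (by linarith) (by positivity)
      _ = _ := by field_simp
  have h8 : ((Y i).card : ℝ) / 2 ≤ m * N := by
    rw [h6] at h5
    have h9 : (((m * N - (((Y i).card : ℝ) - ((Y i).filter fun a => c a x = 0).card) : ℝ)) : ℂ) =
        ∑ l ∈ Ico 1 m, (starRingEnd ℂ) (ζ i) ^ l * ∑ a ∈ Y i, c a x ^ l := by
      rw [← sub_eq_iff_eq_add] at h5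
      rw [← h5]
      push_cast
      ring
    have h10 : |m * N - (((Y i).card : ℝ) - ((Y i).filter fun a => c a x = 0).card)| ≤
        (Y i).card / 4 := by
      rw [← Real.norm_eq_abs, ← Complex.norm_real, h9]
      exact h7
    have h11 := (abs_le.1 h10).1
    linarith
  have h9 : Set.ncard {a | a ∈ Y i ∧ c a x = ζ i} = ((Y i).filter fun a => c a x = ζ i).card := by
    rw [← Set.ncard_coe_finset]
    congr 1
    ext a; simp
  rw [h9, ← hN, div_le_iff₀ (by positivity)]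
  linarith

/-- **Embedding of all patterns.** -/
theorem embed (c : α → α → ℂ) (A : Finset α) {m : ℕ} (hm : 2 ≤ m)
    (hc : ∀ a b, c a b = 0 ∨ c a b ^ m = 1) (κ : ℝ) (hκ : 0 ≤ κ)
    (H : ∀ j ∈ Ico 1 m, ∀ v : α → ℂ, (∀ a, ‖v a‖ ≤ 1) →
      ∑ x ∈ A, ‖∑ a ∈ A, v a * c a x ^ j‖ ^ 2 ≤ κ * (A.card : ℝ) ^ 2 * A.card)
    (Z : ∑ x ∈ A, (zr c A x : ℝ) ≤ κ * A.card * A.card) (K : ℕ) (s : ℝ) (hs : 0 < s)
    (hcond : 16 * K * (m : ℝ) ^ 3 * κ * (A.card : ℝ) ^ 3 < s ^ 3) (k : ℕ) (hk : k ≤ K) :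
    ∀ (Y : Fin k → Finset α), (∀ i, Y i ⊆ A) → (∀ i, (2 * m : ℝ) ^ k * s ≤ (Y i).card) →
      ∀ σ : Fin k → Fin k → ℂ, (∀ i j, i < j → σ i j ^ m = 1) →
        ∃ a : Fin k → α, (∀ i, a i ∈ Y i) ∧ ∀ i j, i < j → c (a i) (a j) = σ i j := by
  classical
  have hmr : (1 : ℝ) ≤ 2 * m := by
    have : (2 : ℝ) ≤ m := by exact_mod_cast hm
    linarith
  induction k with
  | zero =>
    intro Y _ _ σ _
    exact ⟨Fin.elim0, fun i => i.elim0, fun i => i.elim0⟩
  | succ k ih =>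
    intro Y hY hYs σ hσ
    have hS : s ≤ (2 * m : ℝ) ^ (k + 1) * s := le_mul_of_one_le_left hs.le (one_le_pow₀ hmr)
    have hcond' : 16 * k * (m : ℝ) ^ 3 * κ * (A.card : ℝ) ^ 3 < ((2 * m : ℝ) ^ (k + 1) * s) ^ 3 := by
      have h1 : (k : ℝ) ≤ K := by exact_mod_cast (by omega : k ≤ K)
      calc 16 * k * (m : ℝ) ^ 3 * κ * (A.card : ℝ) ^ 3 ≤
          16 * K * (m : ℝ) ^ 3 * κ * (A.card : ℝ) ^ 3 := by gcongr
        _ < s ^ 3 := hcond
        _ ≤ _ := pow_le_pow_left₀ hs.le hS 3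
    obtain ⟨x, hx, hx2⟩ := step c A hm hc κ hκ H Z (Y (Fin.last k)) (hY _)
      (fun i : Fin k => Y i.castSucc) (fun i => hY _) ((2 * m : ℝ) ^ (k + 1) * s)
      (by positivity) (hYs _) (fun i => hYs _) hcond' (fun i => σ i.castSucc (Fin.last k))
      (fun i => hσ _ _ (Fin.castSucc_lt_last i))
    set Y' : Fin k → Finset α := fun i =>
      (Y i.castSucc).filter fun a => c a x = σ i.castSucc (Fin.last k) with hY'
    have hcard : ∀ i, (2 * m : ℝ) ^ k * s ≤ (Y' i).card := by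
      intro i
      have h1 := hx2 i
      have h2 : Set.ncard {a | a ∈ Y i.castSucc ∧ c a x = σ i.castSucc (Fin.last k)} =
          (Y' i).card := by
        rw [← Set.ncard_coe_finset]
        congr 1
        ext a; simp [hY']
      rw [h2] at h1
      refine le_trans ?_ h1
      rw [le_div_iff₀ (by linarith)]
      calc (2 * m : ℝ) ^ k * s * (2 * m) = (2 * m : ℝ) ^ (k + 1) * s := by ring
        _ ≤ _ := hYs _
    obtain ⟨a, ha1, ha2⟩ := ih (by omega) Y' (fun i => (filter_subset _ _).trans (hY _)) hcard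
      (fun i j => σ i.castSucc j.castSucc) (fun i j hij => hσ _ _ (Fin.castSucc_lt_castSucc_iff.2 hij))
    refine ⟨Fin.snoc (α := fun _ => α) a x, fun i => ?_, fun i j => ?_⟩
    · refine Fin.lastCases ?_ (fun i => ?_) i
      · rw [Fin.snoc_last]; exact hx
      · rw [Fin.snoc_castSucc]; exact (mem_filter.1 (ha1 i)).1
    · refine Fin.lastCases ?_ (fun j => ?_) j
      · refine Fin.lastCases ?_ (fun i => ?_) i
        · exact fun h => absurd h (lt_irrefl _)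
        · intro _
          rw [Fin.snoc_last, Fin.snoc_castSucc]
          exact (mem_filter.1 (ha1 i)).2
      · refine Fin.lastCases ?_ (fun i => ?_) i
        · exact fun h => absurd h (not_lt.2 (Fin.le_last _))
        · intro h
          rw [Fin.snoc_castSucc, Fin.snoc_castSucc]
          exact ha2 i j (Fin.castSucc_lt_castSucc_iff.1 h)

theorem allPatterns (c : α → α → ℂ) (A : Finset α) {m : ℕ} (hm : 2 ≤ m)
    (hc : ∀ a b, c a b = 0 ∨ c a b ^ m = 1) (hd : ∀ a, c a a = 0) (hA : A.Nonempty) (κ : ℝ)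
    (hκ : 0 ≤ κ)
    (H : ∀ j ∈ Ico 1 m, ∀ v : α → ℂ, (∀ a, ‖v a‖ ≤ 1) →
      ∑ x ∈ A, ‖∑ a ∈ A, v a * c a x ^ j‖ ^ 2 ≤ κ * (A.card : ℝ) ^ 2 * A.card)
    (Z : ∑ x ∈ A, (zr c A x : ℝ) ≤ κ * A.card * A.card) (k : ℕ)
    (hcond : 16 * k * (m : ℝ) ^ 3 * (2 * m : ℝ) ^ (3 * k) * κ < 1) :
    AllPatterns c A m k := by
  intro σ hσ
  have hA0 : (0 : ℝ) < A.card := by exact_mod_cast hA.card_pos
  have hm0 : (0 : ℝ) < m := by exact_mod_cast (by omega : 0 < m)
  have hmk : (0 : ℝ) < (2 * m : ℝ) ^ k := by positivity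
  obtain ⟨a, ha1, ha2⟩ := embed c A hm hc κ hκ H Z k ((A.card : ℝ) / (2 * m : ℝ) ^ k)
    (by positivity) (by
      rw [div_pow, lt_div_iff₀ (by positivity)]
      calc 16 * k * (m : ℝ) ^ 3 * κ * (A.card : ℝ) ^ 3 * ((2 * m : ℝ) ^ k) ^ 3 =
          (16 * k * (m : ℝ) ^ 3 * (2 * m : ℝ) ^ (3 * k) * κ) * (A.card : ℝ) ^ 3 := by
            rw [← pow_mul, mul_comm k 3]; ring
        _ < 1 * (A.card : ℝ) ^ 3 := mul_lt_mul_of_pos_right hcond (by positivity)
        _ = _ := one_mul _) k le_rfl (fun _ => A) (fun _ => subset_rfl) (fun _ => by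
      rw [mul_div_cancel₀ _ hmk.ne']) σ hσ
  refine ⟨a, ?_, ha1, ha2⟩
  have key : ∀ i j, i < j → a i ≠ a j := by
    intro i j hij h
    have h1 := ha2 i j hij
    rw [h, hd] at h1
    have h2 := hσ i j hij
    rw [← h1, zero_pow (by omega)] at h2
    exact zero_ne_one h2
  intro i j hij
  by_contra hne
  rcases lt_or_gt_of_ne hne with h | h
  · exact key i j h hij
  · exact key j i h hij.symm

end Pool.Agent.V7H48.SG
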