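import Pool.Agent.V7H48.SG.Conv
import Pool.Agent.V7H48.OD.Main

/-!
# One-set statements of second order: thresholds, Q1, explicit bounds
-/

set_option autoImplicit false

namespace Pool.Agent.V7H48.SG

open Finset Pool.Agent.N793.PG Pool.Agent.V7H48.SP

section onePrime

variable {p : ℕ} [Fact p.Prime] (χ : MulChar (ZMod p) ℂ)

theorem classical_H (A : Finset (ZMod p)) (hA : A.Nonempty) :
    ∀ j ∈ Ico 1 (orderOf χ), ∀ v : ZMod p → ℂ, (∀ a, ‖v a‖ ≤ 1) →
      ∑ x ∈ A, ‖∑ a ∈ A, v a * dk χ a x ^ j‖ ^ 2 ≤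
        (p : ℝ) / (A.card : ℝ) ^ 2 * (A.card : ℝ) ^ 2 * A.card := by
  intro j hj v hv
  simp only [dk_pow χ hj]
  exact second_one (χ ^ j) (pow_ne χ hj) A hA v hv

theorem classical_Z (A : Finset (ZMod p)) (hA : A.Nonempty) :
    ∑ x ∈ A, (zr (dk χ) A x : ℝ) ≤ (p : ℝ) / (A.card : ℝ) ^ 2 * A.card * A.card := by
  have hA0 : (0 : ℝ) < A.card := by exact_mod_cast hA.card_pos
  refine (dk_zeros χ A).trans ?_
  have h1 : (p : ℝ) / (A.card : ℝ) ^ 2 * A.card * A.card = p := by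
    field_simp
  rw [h1]
  have h2 : A.card ≤ p := by
    have := card_le_univ A
    rwa [ZMod.card] at this
  exact_mod_cast h2

/-- every prime: statistics of patterns -/
theorem classical_stat (hχ : χ ≠ 1) (A : Finset (ZMod p)) (hA : A.Nonempty)
    (hp : (p : ℝ) ≤ (A.card : ℝ) ^ 2) (k : ℕ) :
    Stat (dk χ) A (orderOf χ) k
      (4 * k * Real.sqrt ((orderOf χ : ℝ) ^ k * ((p : ℝ) / (A.card : ℝ) ^ 2))) := by
  have hA0 : (0 : ℝ) < A.card := by exact_mod_cast hA.card_pos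
  refine stat (dk χ) A (two_le_order χ hχ) (dk_root χ) hA _ (by positivity) ?_
    (classical_H χ A hA) (classical_Z χ A hA) k
  rw [div_le_one (by positivity)]
  exact hp

/-- every prime: all patterns -/
theorem classical_patterns (hχ : χ ≠ 1) (A : Finset (ZMod p)) (k : ℕ)
    (hk : 16 * k * (orderOf χ : ℝ) ^ 3 * (2 * orderOf χ : ℝ) ^ (3 * k) * p < (A.card : ℝ) ^ 2) :
    AllPatterns (dk χ) A (orderOf χ) k := by
  have hm := two_le_order χ hχ
  have h0 : (0 : ℝ) ≤ 16 * k * (orderOf χ : ℝ) ^ 3 * (2 * orderOf χ : ℝ) ^ (3 * k) * p := by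
    positivity
  have hA0 : (0 : ℝ) < A.card := by
    by_contra h
    have : (A.card : ℝ) = 0 := le_antisymm (not_lt.1 h) (Nat.cast_nonneg _)
    rw [this] at hk
    norm_num at hk
    linarith
  have hA : A.Nonempty := card_pos.1 (by exact_mod_cast hA0)
  refine allPatterns (dk χ) A hm (dk_root χ) (dk_diag χ) hA ((p : ℝ) / (A.card : ℝ) ^ 2)
    (by positivity) (classical_H χ A hA) (classical_Z χ A hA) k ?_
  rw [← mul_div_assoc, div_lt_one (by positivity)]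
  exact hk

end onePrime

variable {F : ∀ p : ℕ, MulChar (ZMod p) ℂ → Prop}

/-- second moments over one set and sums over two sets have the same thresholds -/
theorem second_iff (α : ℝ) : Above (TwoSaves F) α ↔ Above (SecondSaves F) α := by
  constructor
  · intro h ε hε
    obtain ⟨δ, hδ, H⟩ := h ((α + ε) / 2) (by linarith)
    have h1 : 0 < min δ ((ε - α) / 2) := lt_min hδ (by linarith)
    refine ⟨min δ ((ε - α) / 2) / 2, by linarith, ?_⟩
    have h2 := second_of_two (η := (ε - α) / 2) (θ := min δ ((ε - α) / 2) / 2) H (by linarith)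
    have e : (α + ε) / 2 + (ε - α) / 2 = ε := by ring
    rw [e] at h2
    exact h2
  · intro h ε hε
    obtain ⟨δ, hδ, H⟩ := h ε hε
    exact ⟨δ / 4, by linarith, two_of_second H (by linarith)⟩

/-- the family version of the comparison with the ordered sums -/
theorem dker_for {e : ∀ p : ℕ, ZMod p → ℕ} (he : ∀ p : ℕ, p.Prime → Function.Injective (e p))
    (ε : ℝ) : (∃ δ : ℝ, 0 < δ ∧ OD.KSaves OD.dker F ε δ) ↔
      ∃ δ : ℝ, 0 < δ ∧ OD.OrdSaves e (fun p χ => F p χ ∧ χ (-1) = 1) ε δ := by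
  constructor
  · rintro ⟨δ, hδ, p₀, h⟩
    refine ⟨δ, hδ, p₀, fun p hp hlt A hA χ hχ hF => ?_⟩
    have : Fact p.Prime := ⟨hp⟩
    have h1 := h p hp hlt A hA χ hχ hF.1
    unfold OD.dker at h1
    rw [OD.even_sum χ hF.2 (e p) (he p hp) A, norm_mul] at h1
    have h2 : ‖(2 : ℂ)‖ = 2 := by simp
    rw [h2] at h1
    have := norm_nonneg (OD.osum (e p) χ A)
    linarith
  · rintro ⟨δ, hδ, p₀, h⟩
    obtain ⟨p₁, hp₁⟩ := large 2 (δ / 2) (by linarith)
    refine ⟨δ / 2, by linarith, p₀ + p₁, fun p hp hlt A hA χ hχ hF => ?_⟩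
    have : Fact p.Prime := ⟨hp⟩
    have hp0 : (0 : ℝ) < p := by exact_mod_cast hp.pos
    unfold OD.dker
    rcases OD.even_or_odd χ with hev | hodd
    · have h1 := h p hp (by omega) A hA χ hχ ⟨hF, hev⟩
      rw [OD.even_sum χ hev (e p) (he p hp) A, norm_mul]
      have h2 : ‖(2 : ℂ)‖ = 2 := by simp
      rw [h2]
      have h3 : 2 * (p : ℝ) ^ (-δ) ≤ (p : ℝ) ^ (-(δ / 2)) := by
        calc 2 * (p : ℝ) ^ (-δ) ≤ (p : ℝ) ^ (δ / 2) * (p : ℝ) ^ (-δ) :=
              mul_le_mul_of_nonneg_right (hp₁ p (by omega)) (by positivity)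
          _ = _ := by rw [← Real.rpow_add hp0]; congr 1; ring
      calc 2 * ‖OD.osum (e p) χ A‖ ≤ 2 * ((p : ℝ) ^ (-δ) * (A.card : ℝ) ^ 2) :=
            mul_le_mul_of_nonneg_left h1 (by norm_num)
        _ = 2 * (p : ℝ) ^ (-δ) * (A.card : ℝ) ^ 2 := by ring
        _ ≤ _ := mul_le_mul_of_nonneg_right h3 (by positivity)
    · rw [OD.odd_sum χ hodd A, norm_zero]
      positivity

/-- Q1 for a family and the two-set bound for its even characters -/
theorem q1For_iff (α : ℝ) (hα : 0 ≤ α) :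
    Q1For F α ↔ Above (TwoSaves (fun p χ => F p χ ∧ χ (-1) = 1)) α := by
  have h1 : Q1For F α ↔ ∀ ε : ℝ, α < ε → ∃ δ : ℝ, 0 < δ ∧ OD.KSaves OD.dker F ε δ := by
    unfold Q1For
    refine forall_congr' fun ε => ?_
    constructor
    · intro h hε
      obtain ⟨τ, hτ, P, h⟩ := h hε
      obtain ⟨δ, hδ, p₀, h1⟩ := (OD.conv (fun p A χ => ‖∑ a ∈ A, ∑ b ∈ A, χ (a - b)‖)
        (fun _ _ => True) F ε (by linarith)).1
          ⟨τ, hτ, P, fun p hp hlt A hA _ χ hχ hF => h p hp hlt A hA χ hχ hF⟩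
      exact ⟨δ, hδ, p₀, fun p hp hlt A hA χ hχ hF => h1 p hp hlt A hA trivial χ hχ hF⟩
    · intro h hε
      obtain ⟨δ, hδ, p₀, h⟩ := h hε
      obtain ⟨τ, hτ, P, h1⟩ := (OD.conv (fun p A χ => ‖∑ a ∈ A, ∑ b ∈ A, χ (a - b)‖)
        (fun _ _ => True) F ε (by linarith)).2
          ⟨δ, hδ, p₀, fun p hp hlt A hA _ χ hχ hF => h p hp hlt A hA χ hχ hF⟩
      exact ⟨τ, hτ, P, fun p hp hlt A hA χ hχ hF => h1 p hp hlt A hA trivial χ hχ hF⟩
  rw [h1]
  have h2 := OD.ordered_iff_two (F := fun p χ => F p χ ∧ χ (-1) = 1) OD.val_inj α hα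
  exact (forall_congr' fun ε => forall_congr' fun _ => dker_for OD.val_inj ε).trans h2

/-- two sets control the statistics of patterns and the occurrence of all patterns -/
theorem stat_above (hF : PowerClosed F) (α : ℝ) (hα : 0 ≤ α) (h : Above (TwoSaves F) α) :
    Above (fun ε δ => StatSaves F ε δ ∧ PatternSaves F ε δ) α := by
  intro ε hε
  obtain ⟨δ, hδ, H⟩ := h ((α + ε) / 2) (by linarith)
  have h1 : 0 < min δ ((ε - α) / 2) := lt_min hδ (by linarith)
  have h2 := stat_of_two (η := (ε - α) / 2) hF (by linarith) hδ (by linarith) H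
  have e : (α + ε) / 2 + (ε - α) / 2 = ε := by ring
  rw [e] at h2
  obtain ⟨h3, h4⟩ := h2
  refine ⟨min δ ((ε - α) / 2) / 12, by linarith, ?_, h4⟩
  -- monotonicity in the saving
  obtain ⟨p₀, h3⟩ := h3
  refine ⟨p₀, fun p hp hlt A hA χ hχ hFχ k hk Φ hΦ => ?_⟩
  have hp1 : (1 : ℝ) ≤ p := by exact_mod_cast hp.one_le
  have h5 : (orderOf χ : ℝ) ^ k ≤ (p : ℝ) ^ (min δ ((ε - α) / 2) / 6) :=
    hk.trans (Real.rpow_le_rpow_of_exponent_le hp1 (by linarith))
  exact (h3 p hp hlt A hA χ hχ hFχ k h5 Φ hΦ).trans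
    (Real.rpow_le_rpow_of_exponent_le hp1 (by linarith))

/-- for characters of bounded order this is an equivalence -/
theorem stat_iff {n : ℕ} (hn : 0 < n) (hF : PowerClosed F)
    (hFn : ∀ (p : ℕ) (χ : MulChar (ZMod p) ℂ), F p χ → χ ^ n = 1) (α : ℝ) (hα : 0 ≤ α) :
    Above (TwoSaves F) α ↔ Above (StatSaves F) α := by
  constructor
  · intro h ε hε
    obtain ⟨δ, hδ, h1, _⟩ := stat_above hF α hα h ε hε
    exact ⟨δ, hδ, h1⟩
  · intro h
    rw [second_iff]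
    intro ε hε
    obtain ⟨δ, hδ, H⟩ := h ε hε
    exact ⟨δ / 2, by linarith, second_of_statSaves hn hδ (by linarith) hFn H⟩

/-- values of quadratic characters -/
theorem quad_values {p : ℕ} (χ : MulChar (ZMod p) ℂ) (h : χ ^ 2 = 1) (t : ZMod p) :
    χ t = 0 ∨ χ t = 1 ∨ χ t = -1 := by
  by_cases ht : IsUnit t
  · right
    have h1 : (χ ^ 2) t = (1 : MulChar (ZMod p) ℂ) t := by rw [h]
    rw [MulChar.pow_apply' χ two_ne_zero, MulChar.one_apply ht] at h1
    exact mul_self_eq_one_iff.1 (by rw [← sq]; exact h1)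
  · left; exact MulChar.map_nonunit χ ht

/-- even and odd characters -/
theorem split_iff (α : ℝ) : Above (TwoSaves F) α ↔
    Above (TwoSaves (fun p χ => F p χ ∧ χ (-1) = 1)) α ∧
      Above (TwoSaves (fun p χ => F p χ ∧ χ (-1) = -1)) α := by
  constructor
  · intro h
    constructor
    · intro ε hε
      obtain ⟨δ, hδ, p₀, H⟩ := h ε hε
      exact ⟨δ, hδ, p₀, fun p hp hlt A B hA hB χ hχ hF => H p hp hlt A B hA hB χ hχ hF.1⟩
    · intro ε hε
      obtain ⟨δ, hδ, p₀, H⟩ := h ε hε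
      exact ⟨δ, hδ, p₀, fun p hp hlt A B hA hB χ hχ hF => H p hp hlt A B hA hB χ hχ hF.1⟩
  · rintro ⟨g1, g2⟩ ε hε
    obtain ⟨δ, hδ, H1⟩ := g1 ε hε
    obtain ⟨δ', hδ', H2⟩ := g2 ε hε
    obtain ⟨p₁, k1⟩ := Saves.mono H1 le_rfl le_rfl (min_le_left δ δ')
    obtain ⟨p₂, k2⟩ := Saves.mono H2 le_rfl le_rfl (min_le_right δ δ')
    refine ⟨min δ δ', lt_min hδ hδ', p₁ + p₂, fun p hp hlt A B hA hB χ hχ hF => ?_⟩
    rcases OD.even_or_odd χ with h | h
    · exact k1 p hp (by omega) A B hA hB χ hχ ⟨hF, h⟩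
    · exact k2 p hp (by omega) A B hA hB χ hχ ⟨hF, h⟩

/-- cyclic triangles and sums over two sets -/
theorem cyc_two (hF : ∀ (p : ℕ) (χ : MulChar (ZMod p) ℂ), F p χ → χ ^ 2 = 1 ∧ χ (-1) = -1)
    (α : ℝ) (hα : 0 ≤ α) : Above (TwoSaves F) α ↔ Above (CycSaves F) α := by
  rw [second_iff]
  refine forall_congr' fun ε => ?_
  constructor
  · intro h hε
    exact (cyc_iff (fun p χ hχ => ⟨quad_values χ (hF p χ hχ).1, (hF p χ hχ).2⟩) ε
      (by linarith)).2 (h hε)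
  · intro h hε
    exact (cyc_iff (fun p χ hχ => ⟨quad_values χ (hF p χ hχ).1, (hF p χ hχ).2⟩) ε
      (by linarith)).1 (h hε)

/-- the unconditional range -/
theorem half (ε : ℝ) (hε : 0 < ε) : ∃ δ : ℝ, 0 < δ ∧
    StatSaves (fun _ _ => True) (1 / 2 + ε) δ ∧ PatternSaves (fun _ _ => True) (1 / 2 + ε) δ := by
  have h : Above (TwoSaves (fun _ _ => True)) (1 / 2) := by
    intro ε hε
    obtain ⟨δ, hδ, h⟩ := VC.karatsuba (ε - 1 / 2) (by linarith)
    have e : (1 : ℝ) / 2 + (ε - 1 / 2) = ε := by ring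
    rw [e] at h
    exact ⟨δ, hδ, h.mono le_rfl (by linarith) le_rfl⟩
  exact stat_above (fun _ _ _ _ _ => trivial) (1 / 2) (by norm_num) h (1 / 2 + ε) (by linarith)

end Pool.Agent.V7H48.SG
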