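import Pool.Agent.V7H48.SG.Embed
import Pool.Agent.V7H48.SP.Asym
import Pool.Agent.V7H48.OD.Asym

/-!
# Second moments over one set, cyclic triangles, statistics of patterns
-/

set_option autoImplicit false

namespace Pool.Agent.V7H48.SG

open Finset Pool.Agent.N793.PG Pool.Agent.V7H48.SP

section onePrime

variable {p : ℕ} [Fact p.Prime] (χ : MulChar (ZMod p) ℂ)

theorem dk_root (a b : ZMod p) : dk χ a b = 0 ∨ dk χ a b ^ orderOf χ = 1 := root_value χ (a - b)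

theorem dk_diag (a : ZMod p) : dk χ a a = 0 := by
  unfold dk
  rw [sub_self]
  exact MulChar.map_zero χ

theorem eq_zero_of (y : ZMod p) (hy : χ y = 0) : y = 0 := by
  by_contra hne
  have := norm_unit χ hne
  rw [hy, norm_zero] at this
  exact zero_ne_one this

theorem dk_zeros (A : Finset (ZMod p)) : ∑ x ∈ A, (zr (dk χ) A x : ℝ) ≤ A.card := by
  calc ∑ x ∈ A, (zr (dk χ) A x : ℝ) ≤ ∑ x ∈ A, (1 : ℝ) := by
        refine sum_le_sum fun x _ => ?_
        have : zr (dk χ) A x ≤ 1 := by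
          rw [zr, Set.ncard_le_one (Set.toFinite _)]
          rintro a ⟨_, ha⟩ b ⟨_, hb⟩
          have h1 := sub_eq_zero.1 (eq_zero_of χ _ ha)
          have h2 := sub_eq_zero.1 (eq_zero_of χ _ hb)
          exact h1.trans h2.symm
        exact_mod_cast this
    _ = A.card := by simp

/-- the classical second moments over one set -/
theorem second_one (hχ : χ ≠ 1) (A : Finset (ZMod p)) (hA : A.Nonempty)
    (v : ZMod p → ℂ) (hv : ∀ a, ‖v a‖ ≤ 1) :
    ∑ x ∈ A, ‖∑ a ∈ A, v a * χ (a - x)‖ ^ 2 ≤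
      (p : ℝ) / (A.card : ℝ) ^ 2 * (A.card : ℝ) ^ 2 * A.card := by
  have hA0 : (0 : ℝ) < A.card := by exact_mod_cast hA.card_pos
  have h1 := second_w χ hχ A (A.image fun x => -x) hA (hA.image _) v hv
  rw [OD.card_neg, sum_image fun x _ y _ h => neg_injective h] at h1
  simp only [← sub_eq_add_neg] at h1
  refine h1.trans (le_of_eq ?_)
  rw [sq]

/-- the kernel of a power -/
theorem dk_pow {j : ℕ} (hj : j ∈ Ico 1 (orderOf χ)) (a b : ZMod p) :
    dk χ a b ^ j = (χ ^ j) (a - b) := by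
  have hj0 : j ≠ 0 := by have := (mem_Ico.1 hj).1; omega
  rw [MulChar.pow_apply' χ hj0]
  rfl

/-- **Cyclic triangles.** -/
theorem cyc_eq (hq : ∀ t, χ t = 0 ∨ χ t = 1 ∨ χ t = -1) (hodd : χ (-1) = -1)
    (A : Finset (ZMod p)) :
    (cyc χ A : ℝ) = ((A.card : ℝ) ^ 3 - A.card - 3 * ∑ a ∈ A, ‖∑ b ∈ A, χ (a - b)‖ ^ 2) / 8 := by
  classical
  have hanti : ∀ x y : ZMod p, χ (x - y) = - χ (y - x) := by
    intro x y
    rw [OD.symm_ker χ x y, hodd, neg_one_mul]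
  -- a real version of the character
  set r : ZMod p → ℝ := fun t => (χ t).re with hr
  have hre : ∀ t, χ t = (r t : ℂ) := by
    intro t
    rcases hq t with h | h | h <;> rw [hr] <;> simp [h]
  have hr0 : r 0 = 0 := by
    rw [hr]; simp [MulChar.map_zero χ]
  have hrne : ∀ t, t ≠ 0 → r t = 1 ∨ r t = -1 := by
    intro t ht
    rcases hq t with h | h | h
    · exact absurd (eq_zero_of χ t h) ht
    · left; rw [hr]; simp [h]
    · right; rw [hr]; simp [h]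
  have hra : ∀ x y : ZMod p, r (x - y) = - r (y - x) := by
    intro x y
    have := hanti x y
    rw [hre, hre] at this
    exact_mod_cast this
  have hone : ∀ t, χ t = 1 ↔ r t = 1 := by
    intro t
    rw [hre]
    exact_mod_cast Iff.rfl
  -- the count
  have hcyc : (cyc χ A : ℝ) = ∑ x ∈ A, ∑ y ∈ A, ∑ z ∈ A,
      if r (x - y) = 1 ∧ r (y - z) = 1 ∧ r (z - x) = 1 then (1 : ℝ) else 0 := by
    have h1 : {t : ZMod p × ZMod p × ZMod p | (t.1 ∈ A ∧ t.2.1 ∈ A ∧ t.2.2 ∈ A) ∧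
        χ (t.1 - t.2.1) = 1 ∧ χ (t.2.1 - t.2.2) = 1 ∧ χ (t.2.2 - t.1) = 1} =
        ((A ×ˢ (A ×ˢ A)).filter fun t => r (t.1 - t.2.1) = 1 ∧ r (t.2.1 - t.2.2) = 1 ∧
          r (t.2.2 - t.1) = 1 : Finset _) := by
      ext t
      simp only [Set.mem_setOf_eq, coe_filter, mem_product, hone]
    rw [cyc, h1, Set.ncard_coe_finset, card_filter]
    push_cast
    rw [sum_product]
    refine sum_congr rfl fun x _ => ?_
    rw [sum_product]
  have hpt : ∀ x y z : ZMod p,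
      (8 : ℝ) * (if r (x - y) = 1 ∧ r (y - z) = 1 ∧ r (z - x) = 1 then (1 : ℝ) else 0) =
      (1 + r (x - y)) * (1 + r (y - z)) * (1 + r (z - x)) -
        if x = y ∧ y = z then (1 : ℝ) else 0 := by
    intro x y z
    by_cases hxy : x = y
    · subst hxy
      by_cases hxz : x = z
      · subst hxz
        simp [hr0]
      · rw [if_neg (by rintro ⟨h, -⟩; simp [hr0] at h), if_neg (by tauto)]
        have := hra x z
        rcases hrne (x - z) (sub_ne_zero.2 hxz) with h | h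
        · rw [sub_self, hr0, hra z x, h]; ring
        · rw [sub_self, hr0, hra z x, h]; ring
    · by_cases hyz : y = z
      · subst hyz
        rw [if_neg (by rintro ⟨-, h, -⟩; simp [hr0] at h), if_neg (by tauto)]
        rcases hrne (x - y) (sub_ne_zero.2 hxy) with h | h
        · rw [sub_self, hr0, hra y x, h]; ring
        · rw [sub_self, hr0, hra y x, h]; ring
      · by_cases hxz : z = x
        · subst hxz
          rw [if_neg (by rintro ⟨-, -, h⟩; simp [hr0] at h), if_neg (by tauto)]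
          rcases hrne (z - y) (sub_ne_zero.2 hxy) with h | h
          · rw [sub_self, hr0, hra y z, h]; ring
          · rw [sub_self, hr0, hra y z, h]; ring
        · rw [if_neg (show ¬ (x = y ∧ y = z) by tauto), sub_zero]
          rcases hrne (x - y) (sub_ne_zero.2 hxy) with h1 | h1 <;>
            rcases hrne (y - z) (sub_ne_zero.2 hyz) with h2 | h2 <;>
            rcases hrne (z - x) (sub_ne_zero.2 hxz) with h3 | h3 <;>
            rw [h1, h2, h3] <;> norm_num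
  -- the sums
  set R : ZMod p → ℝ := fun a => ∑ b ∈ A, r (a - b) with hR
  have hcol : ∀ y, ∑ x ∈ A, r (x - y) = - R y := by
    intro y
    rw [hR]
    simp only
    rw [← sum_neg_distrib]
    exact sum_congr rfl fun x _ => hra x y
  have hnorm : ∀ a, ‖∑ b ∈ A, χ (a - b)‖ ^ 2 = R a ^ 2 := by
    intro a
    have : ∑ b ∈ A, χ (a - b) = (R a : ℂ) := by
      rw [hR]
      push_cast
      exact sum_congr rfl fun b _ => hre _
    rw [this, Complex.norm_real, Real.norm_eq_abs, sq_abs]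
  have hsumR : ∑ a ∈ A, R a = 0 := by
    have h1 : ∑ a ∈ A, R a = ∑ a ∈ A, - R a := by
      calc ∑ a ∈ A, R a = ∑ a ∈ A, ∑ b ∈ A, r (a - b) := rfl
        _ = ∑ b ∈ A, ∑ a ∈ A, r (a - b) := sum_comm
        _ = _ := sum_congr rfl fun b _ => hcol b
    rw [sum_neg_distrib] at h1
    linarith
  have e1 : ∑ x ∈ A, ∑ y ∈ A, ∑ z ∈ A, (1 + r (x - y)) * (1 + r (y - z)) * (1 + r (z - x)) =
      (A.card : ℝ) ^ 3 - 3 * ∑ a ∈ A, R a ^ 2 := by
    have hx : ∀ x y z : ZMod p, (1 + r (x - y)) * (1 + r (y - z)) * (1 + r (z - x)) =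
        1 + r (x - y) + r (y - z) + r (z - x) + r (x - y) * r (y - z) + r (y - z) * r (z - x) +
          r (z - x) * r (x - y) + r (x - y) * r (y - z) * r (z - x) := fun x y z => by ring
    simp only [hx, sum_add_distrib]
    have t0 : ∑ x ∈ A, ∑ y ∈ A, ∑ z ∈ A, (1 : ℝ) = (A.card : ℝ) ^ 3 := by
      simp only [sum_const, nsmul_eq_mul]; ring
    have t1 : ∑ x ∈ A, ∑ y ∈ A, ∑ z ∈ A, r (x - y) = 0 := by
      simp only [sum_const, nsmul_eq_mul]
      simp only [← mul_sum]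
      change (A.card : ℝ) * ∑ x ∈ A, R x = 0
      rw [hsumR, mul_zero]
    have t2 : ∑ x ∈ A, ∑ y ∈ A, ∑ z ∈ A, r (y - z) = 0 := by
      change ∑ x ∈ A, ∑ y ∈ A, R y = 0
      rw [hsumR]; simp
    have t3 : ∑ x ∈ A, ∑ y ∈ A, ∑ z ∈ A, r (z - x) = 0 := by
      simp only [hcol, sum_const, nsmul_eq_mul]
      rw [← mul_sum, sum_neg_distrib, hsumR]; simp
    have t4 : ∑ x ∈ A, ∑ y ∈ A, ∑ z ∈ A, r (x - y) * r (y - z) = - ∑ a ∈ A, R a ^ 2 := by
      rw [sum_comm, ← sum_neg_distrib]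
      refine sum_congr rfl fun y _ => ?_
      simp only [← mul_sum]
      rw [← sum_mul, hcol]
      change - R y * R y = _
      ring
    have t5 : ∑ x ∈ A, ∑ y ∈ A, ∑ z ∈ A, r (y - z) * r (z - x) = - ∑ a ∈ A, R a ^ 2 := by
      have h1 : ∀ x ∈ A, ∑ y ∈ A, ∑ z ∈ A, r (y - z) * r (z - x) =
          ∑ z ∈ A, - R z * r (z - x) := by
        intro x _
        rw [sum_comm]
        refine sum_congr rfl fun z _ => ?_
        rw [← sum_mul, hcol]
      rw [sum_congr rfl h1, sum_comm, ← sum_neg_distrib]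
      refine sum_congr rfl fun z _ => ?_
      rw [← mul_sum]
      change - R z * R z = _
      ring
    have t6 : ∑ x ∈ A, ∑ y ∈ A, ∑ z ∈ A, r (z - x) * r (x - y) = - ∑ a ∈ A, R a ^ 2 := by
      rw [← sum_neg_distrib]
      refine sum_congr rfl fun x _ => ?_
      have h1 : ∀ y ∈ A, ∑ z ∈ A, r (z - x) * r (x - y) = - R x * r (x - y) := by
        intro y _
        rw [← sum_mul, hcol]
      rw [sum_congr rfl h1, ← mul_sum]
      change - R x * R x = _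
      ring
    have t7 : ∑ x ∈ A, ∑ y ∈ A, ∑ z ∈ A, r (x - y) * r (y - z) * r (z - x) = 0 := by
      set Q := ∑ x ∈ A, ∑ y ∈ A, ∑ z ∈ A, r (x - y) * r (y - z) * r (z - x) with hQ
      have h1 : Q = ∑ x ∈ A, ∑ y ∈ A, ∑ z ∈ A, r (z - y) * r (y - x) * r (x - z) := by
        rw [hQ]
        calc ∑ x ∈ A, ∑ y ∈ A, ∑ z ∈ A, r (x - y) * r (y - z) * r (z - x) =
            ∑ y ∈ A, ∑ x ∈ A, ∑ z ∈ A, r (x - y) * r (y - z) * r (z - x) := sum_comm
          _ = ∑ y ∈ A, ∑ z ∈ A, ∑ x ∈ A, r (x - y) * r (y - z) * r (z - x) :=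
              sum_congr rfl fun y _ => sum_comm
          _ = _ := sum_comm
      have h2 : Q = - Q := by
        conv_lhs => rw [h1]
        rw [hQ, ← sum_neg_distrib]
        refine sum_congr rfl fun x _ => ?_
        rw [← sum_neg_distrib]
        refine sum_congr rfl fun y _ => ?_
        rw [← sum_neg_distrib]
        refine sum_congr rfl fun z _ => ?_
        rw [hra z y, hra y x, hra x z]
        ring
      linarith
    rw [t0, t1, t2, t3, t4, t5, t6, t7]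
    ring
  have e2 : ∑ x ∈ A, ∑ y ∈ A, ∑ z ∈ A, (if x = y ∧ y = z then (1 : ℝ) else 0) = A.card := by
    have h1 : ∀ x ∈ A, ∑ y ∈ A, ∑ z ∈ A, (if x = y ∧ y = z then (1 : ℝ) else 0) = 1 := by
      intro x hx
      have h2 : ∀ y ∈ A, ∑ z ∈ A, (if x = y ∧ y = z then (1 : ℝ) else 0) =
          if x = y then 1 else 0 := by
        intro y hy
        by_cases h : x = y
        · simp only [h, true_and, if_true]
          rw [sum_ite_eq, if_pos hy]
        · simp [h]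
      rw [sum_congr rfl h2, sum_ite_eq, if_pos hx]
    rw [sum_congr rfl h1]; simp
  have e3 : (8 : ℝ) * cyc χ A = (A.card : ℝ) ^ 3 - 3 * ∑ a ∈ A, R a ^ 2 - A.card := by
    rw [hcyc, ← e1, ← e2]
    simp only [mul_sum]
    rw [← sum_sub_distrib]
    refine sum_congr rfl fun x _ => ?_
    rw [← sum_sub_distrib]
    refine sum_congr rfl fun y _ => ?_
    rw [← sum_sub_distrib]
    exact sum_congr rfl fun z _ => hpt x y z
  simp only [hnorm]
  linarith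

/-- the union trick -/
theorem union_trick (X Y : Finset (ZMod p)) (M : ℕ) (hX : X.card = M) (hY : Y.card = M) (q : ℝ)
    (hq : 0 ≤ q)
    (H : ∀ Z : Finset (ZMod p), M ≤ Z.card →
      ∑ a ∈ Z, ‖∑ b ∈ Z, χ (a - b)‖ ^ 2 ≤ q ^ 2 * (Z.card : ℝ) ^ 3) :
    ‖∑ x ∈ X, ∑ y ∈ Y, χ (x - y)‖ ≤ 5 * q * (M : ℝ) ^ 2 := by
  classical
  have key : ∀ Z : Finset (ZMod p), M ≤ Z.card →
      ∑ a ∈ Z, ‖∑ b ∈ Z, χ (a - b)‖ ≤ q * (Z.card : ℝ) ^ 2 := by
    intro Z hZ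
    have h1 : (∑ a ∈ Z, ‖∑ b ∈ Z, χ (a - b)‖) ^ 2 ≤
        Z.card * ∑ a ∈ Z, ‖∑ b ∈ Z, χ (a - b)‖ ^ 2 := sq_sum_le_card_mul_sum_sq
    refine (abs_le_of_sq_le_sq' (h1.trans ?_) (by positivity)).2
    calc _ ≤ (Z.card : ℝ) * (q ^ 2 * (Z.card : ℝ) ^ 3) :=
          mul_le_mul_of_nonneg_left (H Z hZ) (Nat.cast_nonneg _)
      _ = _ := by ring
  have hcolX : ∀ b, ‖∑ a ∈ X, χ (a - b)‖ = ‖∑ a ∈ X, χ (b - a)‖ := by
    intro b
    have : ∑ a ∈ X, χ (a - b) = χ (-1) * ∑ a ∈ X, χ (b - a) := by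
      rw [mul_sum]
      exact sum_congr rfl fun a _ => OD.symm_ker χ a b
    rw [this, norm_mul, OD.norm_neg_one, one_mul]
  set Z := X ∪ Y with hZ
  have hZc : (Z.card : ℝ) ≤ 2 * M := by
    have := card_union_le X Y
    rw [hX, hY] at this
    rw [hZ]
    exact_mod_cast (by omega : (X ∪ Y).card ≤ 2 * M)
  have hMZ : M ≤ Z.card := by rw [← hX]; exact card_le_card subset_union_left
  have e : ∑ x ∈ X, ∑ y ∈ Y, χ (x - y) =
      ∑ x ∈ X, ∑ y ∈ Z, χ (x - y) - ∑ y ∈ Z \ Y, ∑ x ∈ X, χ (x - y) := by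
    rw [sum_comm (s := Z \ Y), ← sum_sub_distrib]
    refine sum_congr rfl fun x _ => ?_
    rw [← sum_sdiff (show Y ⊆ Z from subset_union_right)]
    ring
  rw [e]
  have h1 : ‖∑ x ∈ X, ∑ y ∈ Z, χ (x - y)‖ ≤ q * (2 * M) ^ 2 := by
    refine (norm_sum_le _ _).trans ?_
    calc ∑ x ∈ X, ‖∑ y ∈ Z, χ (x - y)‖ ≤ ∑ x ∈ Z, ‖∑ y ∈ Z, χ (x - y)‖ :=
          sum_le_sum_of_subset_of_nonneg subset_union_left fun _ _ _ => norm_nonneg _
      _ ≤ q * (Z.card : ℝ) ^ 2 := key Z hMZ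
      _ ≤ _ := by gcongr
  have h2 : ‖∑ y ∈ Z \ Y, ∑ x ∈ X, χ (x - y)‖ ≤ q * (M : ℝ) ^ 2 := by
    refine (norm_sum_le _ _).trans ?_
    have hsub : Z \ Y ⊆ X := by
      intro z hz
      rw [mem_sdiff, hZ, mem_union] at hz
      tauto
    calc ∑ y ∈ Z \ Y, ‖∑ x ∈ X, χ (x - y)‖ ≤ ∑ y ∈ X, ‖∑ x ∈ X, χ (x - y)‖ :=
          sum_le_sum_of_subset_of_nonneg hsub fun _ _ _ => norm_nonneg _
      _ = ∑ y ∈ X, ‖∑ x ∈ X, χ (y - x)‖ := sum_congr rfl fun y _ => hcolX y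
      _ ≤ q * (X.card : ℝ) ^ 2 := key X hX.ge
      _ = _ := by rw [hX]
  calc _ ≤ _ := norm_sub_le _ _
    _ ≤ q * (2 * M) ^ 2 + q * (M : ℝ) ^ 2 := add_le_add h1 h2
    _ = _ := by ring

end onePrime

variable {F : ∀ p : ℕ, MulChar (ZMod p) ℂ → Prop}

/-- bounds for subsets in the difference form -/
theorem subsets_dk {α δ η : ℝ} (h : Saves F α α δ) : ∃ p₀ : ℕ, ∀ p : ℕ, p.Prime → p₀ < p →
    ∀ A : Finset (ZMod p), (p : ℝ) ^ (α + η) < (A.card : ℝ) →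
      ∀ χ : MulChar (ZMod p) ℂ, χ ≠ 1 → F p χ → ∀ M ⊆ A, ∀ N ⊆ A,
        ‖∑ a ∈ M, ∑ b ∈ N, χ (a - b)‖ ≤ (p : ℝ) ^ (-min δ η) * (A.card : ℝ) ^ 2 := by
  obtain ⟨p₀, h⟩ := subsets (η := η) h
  refine ⟨p₀, fun p hp hlt A hA χ hχ hF M hM N hN => ?_⟩
  have : Fact p.Prime := ⟨hp⟩
  have h1 := h p hp hlt A (A.image fun x => -x) hA (by rw [OD.card_neg]; exact hA) χ hχ hF M hM
    (N.image fun x => -x) (image_subset_image hN)
  rw [OD.card_neg] at h1
  simp only [sum_image fun x _ y _ h => neg_injective h, ← sub_eq_add_neg] at h1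
  calc _ ≤ _ := h1
    _ = _ := by ring

/-- two sets control the second moments over one set -/
theorem second_of_two {α δ η θ : ℝ} (h : Saves F α α δ) (hθ : θ < min δ η) :
    SecondSaves F (α + η) θ := by
  obtain ⟨p₀, h⟩ := subsets_dk (η := η) h
  obtain ⟨p₁, hp₁⟩ := large 4 (min δ η - θ) (by linarith)
  refine ⟨p₀ + p₁, fun p hp hlt A hA χ hχ hF => ?_⟩
  have : Fact p.Prime := ⟨hp⟩
  have hp0 : (0 : ℝ) < p := by exact_mod_cast hp.pos
  have h1 := VC.first_moment A A (fun a b => χ (a - b)) _ (h p hp (by omega) A hA χ hχ hF) A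
    subset_rfl
  have h2 : ∀ a, ‖∑ b ∈ A, χ (a - b)‖ ≤ A.card := fun a => by
    refine (norm_sum_le _ _).trans ?_
    calc ∑ b ∈ A, ‖χ (a - b)‖ ≤ ∑ b ∈ A, (1 : ℝ) := sum_le_sum fun b _ => norm_le_one _ _
      _ = A.card := by simp
  have h3 : 4 * (p : ℝ) ^ (-min δ η) ≤ (p : ℝ) ^ (-θ) := by
    calc 4 * (p : ℝ) ^ (-min δ η) ≤ (p : ℝ) ^ (min δ η - θ) * (p : ℝ) ^ (-min δ η) :=
          mul_le_mul_of_nonneg_right (hp₁ p (by omega)) (by positivity)
      _ = _ := by rw [← Real.rpow_add hp0]; congr 1; ring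
  calc ∑ a ∈ A, ‖∑ b ∈ A, χ (a - b)‖ ^ 2 ≤ ∑ a ∈ A, A.card * ‖∑ b ∈ A, χ (a - b)‖ :=
        sum_le_sum fun a _ => by
          rw [sq]
          exact mul_le_mul_of_nonneg_right (h2 a) (norm_nonneg _)
    _ = A.card * ∑ a ∈ A, ‖∑ b ∈ A, χ (a - b)‖ := by rw [mul_sum]
    _ ≤ A.card * (4 * ((p : ℝ) ^ (-min δ η) * (A.card : ℝ) ^ 2)) :=
        mul_le_mul_of_nonneg_left h1 (Nat.cast_nonneg _)
    _ = 4 * (p : ℝ) ^ (-min δ η) * (A.card : ℝ) ^ 3 := by ring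
    _ ≤ _ := by gcongr

/-- **Second moments over one set control two sets.** -/
theorem two_of_second {ε δ θ : ℝ} (h : SecondSaves F ε δ) (hθ : θ < δ / 2) :
    Saves F ε ε θ := by
  obtain ⟨p₀, h⟩ := h
  obtain ⟨p₁, hp₁⟩ := large 5 (δ / 2 - θ) (by linarith)
  refine ⟨p₀ + p₁, fun p hp hlt A B hA hB χ hχ hF => ?_⟩
  have : Fact p.Prime := ⟨hp⟩
  have hp0 : (0 : ℝ) < p := by exact_mod_cast hp.pos
  have hp1 : (1 : ℝ) ≤ p := by exact_mod_cast hp.one_le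
  set M : ℕ := ⌊(p : ℝ) ^ ε⌋₊ + 1 with hM
  have hx0 : 0 ≤ (p : ℝ) ^ ε := Real.rpow_nonneg hp0.le _
  have hM1 : (p : ℝ) ^ ε < (M : ℝ) := by
    rw [hM]; push_cast; exact Nat.lt_floor_add_one _
  have hM0 : (0 : ℝ) < M := hx0.trans_lt hM1
  have hAM : M ≤ A.card := Nat.succ_le_of_lt ((Nat.floor_lt hx0).2 hA)
  have hBM : M ≤ B.card := Nat.succ_le_of_lt ((Nat.floor_lt hx0).2 hB)
  obtain ⟨A₁, -, hA1, h1⟩ := sub_one χ A B M hAM
  obtain ⟨B₁, -, hB1, h2⟩ := sub_one χ B A₁ M hBM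
  rw [dsum_comm χ B, dsum_comm χ B₁] at h2
  change ‖dsum χ A B‖ ≤ _
  set y : ℝ := (p : ℝ) ^ (-θ) with hy
  have hy0 : 0 < y := Real.rpow_pos_of_pos hp0 _
  have h3 : ‖dsum χ A₁ B₁‖ ≤ y * (M : ℝ) ^ 2 := by
    have h4 := union_trick χ A₁ (B₁.image fun x => -x) M hA1 (by rw [OD.card_neg, hB1])
      ((p : ℝ) ^ (-(δ / 2))) (by positivity) (fun Z hZ => by
        have h5 := h p hp (by omega) Z (hM1.trans_le (by exact_mod_cast hZ)) χ hχ hF
        have e : ((p : ℝ) ^ (-(δ / 2))) ^ 2 = (p : ℝ) ^ (-δ) := by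
          rw [← Real.rpow_natCast, ← Real.rpow_mul hp0.le]; congr 1; push_cast; ring
        rw [e]
        exact h5)
    simp only [sum_image fun x _ y _ h => neg_injective h, sub_neg_eq_add] at h4
    refine h4.trans (mul_le_mul_of_nonneg_right ?_ (by positivity))
    calc 5 * (p : ℝ) ^ (-(δ / 2)) ≤ (p : ℝ) ^ (δ / 2 - θ) * (p : ℝ) ^ (-(δ / 2)) :=
          mul_le_mul_of_nonneg_right (hp₁ p (by omega)) (by positivity)
      _ = y := by rw [hy, ← Real.rpow_add hp0]; congr 1; ring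
  have h4 : ((M : ℝ) * M) * ‖dsum χ A B‖ ≤ ((M : ℝ) * M) * (y * (A.card : ℝ) * (B.card : ℝ)) := by
    have h5 := mul_le_mul_of_nonneg_left h1 hM0.le
    have h6 := mul_le_mul_of_nonneg_left h2 (Nat.cast_nonneg A.card (α := ℝ))
    have h7 : (A.card : ℝ) * (B.card * ‖dsum χ A₁ B₁‖) ≤
        (A.card : ℝ) * (B.card * (y * (M : ℝ) ^ 2)) := by
      gcongr
    calc ((M : ℝ) * M) * ‖dsum χ A B‖ = M * (M * ‖dsum χ A B‖) := by ring
      _ ≤ M * (A.card * ‖dsum χ A₁ B‖) := h5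
      _ = A.card * (M * ‖dsum χ A₁ B‖) := by ring
      _ ≤ A.card * (B.card * ‖dsum χ A₁ B₁‖) := h6
      _ ≤ _ := h7
      _ = _ := by ring
  exact le_of_mul_le_mul_left h4 (by positivity)

/-- **Cyclic triangles and second moments.** -/
theorem cyc_iff (hF : ∀ (p : ℕ) (χ : MulChar (ZMod p) ℂ), F p χ →
      (∀ t, χ t = 0 ∨ χ t = 1 ∨ χ t = -1) ∧ χ (-1) = -1) (ε : ℝ) (hε : 0 < ε) :
    (∃ δ : ℝ, 0 < δ ∧ CycSaves F ε δ) ↔ ∃ δ : ℝ, 0 < δ ∧ SecondSaves F ε δ := by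
  constructor
  · rintro ⟨δ, hδ, p₀, h⟩
    refine ⟨δ, hδ, p₀, fun p hp hlt A hA χ hχ hFχ => ?_⟩
    have : Fact p.Prime := ⟨hp⟩
    have h1 := h p hp hlt A hA χ hχ hFχ
    rw [cyc_eq χ (hF p χ hFχ).1 (hF p χ hFχ).2] at h1
    have h2 : (0 : ℝ) ≤ A.card := Nat.cast_nonneg _
    have h3 : 0 ≤ ∑ a ∈ A, ‖∑ b ∈ A, χ (a - b)‖ ^ 2 := sum_nonneg fun _ _ => sq_nonneg _
    have h4 : 0 ≤ (p : ℝ) ^ (-δ) * (A.card : ℝ) ^ 3 := by positivity
    linarith
  · rintro ⟨δ, hδ, p₀, h⟩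
    obtain ⟨p₁, hp₁⟩ := large 6 (min δ ε / 2) (by have := lt_min hδ hε; linarith)
    have hmin : 0 < min δ ε := lt_min hδ hε
    refine ⟨min δ ε / 2, by linarith, p₀ + p₁, fun p hp hlt A hA χ hχ hFχ => ?_⟩
    have : Fact p.Prime := ⟨hp⟩
    have hp0 : (0 : ℝ) < p := by exact_mod_cast hp.pos
    have hp1 : (1 : ℝ) ≤ p := by exact_mod_cast hp.one_le
    have h1 := h p hp (by omega) A hA χ hχ hFχ
    rw [cyc_eq χ (hF p χ hFχ).1 (hF p χ hFχ).2]
    have hA0 : (0 : ℝ) < A.card := (Real.rpow_pos_of_pos hp0 _).trans hA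
    have hA1 : (1 : ℝ) ≤ A.card := by
      have : 0 < A.card := by exact_mod_cast hA0
      exact_mod_cast this
    set y : ℝ := (p : ℝ) ^ (-(min δ ε / 2)) with hy
    have hy0 : 0 < y := Real.rpow_pos_of_pos hp0 _
    have hz : 6 * (p : ℝ) ^ (-min δ ε) ≤ y := by
      calc 6 * (p : ℝ) ^ (-min δ ε) ≤ (p : ℝ) ^ (min δ ε / 2) * (p : ℝ) ^ (-min δ ε) :=
            mul_le_mul_of_nonneg_right (hp₁ p (by omega)) (by positivity)
        _ = y := by rw [hy, ← Real.rpow_add hp0]; congr 1; ring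
    have hz1 : (p : ℝ) ^ (-δ) ≤ (p : ℝ) ^ (-min δ ε) :=
      Real.rpow_le_rpow_of_exponent_le hp1 (neg_le_neg (min_le_left _ _))
    have hz2 : (1 : ℝ) ≤ (p : ℝ) ^ (-min δ ε) * A.card := by
      have h2 : (p : ℝ) ^ (min δ ε) ≤ A.card :=
        (Real.rpow_le_rpow_of_exponent_le hp1 (min_le_right _ _)).trans hA.le
      calc (1 : ℝ) = (p : ℝ) ^ (-min δ ε) * (p : ℝ) ^ (min δ ε) := by
            rw [← Real.rpow_add hp0]; simp
        _ ≤ _ := mul_le_mul_of_nonneg_left h2 (by positivity)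
    have hA3 : (A.card : ℝ) ≤ (p : ℝ) ^ (-min δ ε) * (A.card : ℝ) ^ 3 := by
      have h2 : (A.card : ℝ) ≤ (A.card : ℝ) ^ 2 := by nlinarith
      calc (A.card : ℝ) ≤ (A.card : ℝ) ^ 2 := h2
        _ = 1 * (A.card : ℝ) ^ 2 := (one_mul _).symm
        _ ≤ ((p : ℝ) ^ (-min δ ε) * A.card) * (A.card : ℝ) ^ 2 := by gcongr
        _ = _ := by ring
    have h5 : (p : ℝ) ^ (-δ) * (A.card : ℝ) ^ 3 ≤ (p : ℝ) ^ (-min δ ε) * (A.card : ℝ) ^ 3 := by
      gcongr
    have h6 : 6 * (p : ℝ) ^ (-min δ ε) * (A.card : ℝ) ^ 3 ≤ y * (A.card : ℝ) ^ 3 := by gcongr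
    linarith

/-- **Two sets control the statistics of patterns.** -/
theorem stat_of_two {α δ η : ℝ} (hF : PowClosed F) (hα : 0 ≤ α) (hδ : 0 < δ) (hη : 0 < η)
    (h : Saves F α α δ) :
    StatSaves F (α + η) (min δ η / 6) ∧ PatternSaves F (α + η) (min δ η / 12) := by
  obtain ⟨p₀, h⟩ := subsets_dk (η := η) h
  have hmin : 0 < min δ η := lt_min hδ hη
  have hmain : ∀ p : ℕ, p.Prime → p₀ < p → ∀ A : Finset (ZMod p),
      (p : ℝ) ^ (α + η) < (A.card : ℝ) → ∀ χ : MulChar (ZMod p) ℂ, χ ≠ 1 → F p χ →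
        ∀ j ∈ Ico 1 (orderOf χ), ∀ v : ZMod p → ℂ, (∀ a, ‖v a‖ ≤ 1) →
          ∑ x ∈ A, ‖∑ a ∈ A, v a * dk χ a x ^ j‖ ^ 2 ≤
            16 * (p : ℝ) ^ (-min δ η) * (A.card : ℝ) ^ 2 * A.card := by
    intro p hp hlt A hA χ hχ hFχ j hj v hv
    have : Fact p.Prime := ⟨hp⟩
    simp only [dk_pow χ hj]
    have hne := pow_ne χ hj
    refine (weights A A (fun a b => (χ ^ j) (a - b)) (fun a b => norm_le_one _ _) _
      (h p hp hlt A hA (χ ^ j) hne (hF p χ j hFχ hne)) v hv).trans (le_of_eq ?_)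
    ring
  have hzero : ∀ p : ℕ, p.Prime → ∀ A : Finset (ZMod p), (p : ℝ) ^ (α + η) < (A.card : ℝ) →
      ∀ χ : MulChar (ZMod p) ℂ, ∑ x ∈ A, (zr (dk χ) A x : ℝ) ≤
        16 * (p : ℝ) ^ (-min δ η) * A.card * A.card := by
    intro p hp A hA χ
    have : Fact p.Prime := ⟨hp⟩
    have hp0 : (0 : ℝ) < p := by exact_mod_cast hp.pos
    have hp1 : (1 : ℝ) ≤ p := by exact_mod_cast hp.one_le
    refine (dk_zeros χ A).trans ?_
    have h1 : (p : ℝ) ^ (min δ η) ≤ A.card := by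
      refine le_trans ?_ hA.le
      exact Real.rpow_le_rpow_of_exponent_le hp1 ((min_le_right _ _).trans (by linarith))
    have h2 : (1 : ℝ) ≤ 16 * (p : ℝ) ^ (-min δ η) * A.card := by
      calc (1 : ℝ) = (p : ℝ) ^ (-min δ η) * (p : ℝ) ^ (min δ η) := by
            rw [← Real.rpow_add hp0]; simp
        _ ≤ (p : ℝ) ^ (-min δ η) * A.card := mul_le_mul_of_nonneg_left h1 (by positivity)
        _ ≤ _ := by
            have : 0 ≤ (p : ℝ) ^ (-min δ η) * A.card := by positivity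
            linarith
    calc (A.card : ℝ) = 1 * A.card := (one_mul _).symm
      _ ≤ _ := by gcongr
  obtain ⟨p₁, hp₁⟩ := large 16 (min δ η) hmin
  obtain ⟨p₂, hp₂⟩ := large 16 (min δ η / 12) (by positivity)
  constructor
  · refine ⟨p₀ + p₁ + p₂, fun p hp hlt A hA χ hχ hFχ k hk Φ hΦ => ?_⟩
    have : Fact p.Prime := ⟨hp⟩
    have hp0 : (0 : ℝ) < p := by exact_mod_cast hp.pos
    have hp1 : (1 : ℝ) ≤ p := by exact_mod_cast hp.one_le
    have hA0 : (0 : ℝ) < A.card := (Real.rpow_pos_of_pos hp0 _).trans hA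
    have hA1 : A.Nonempty := card_pos.1 (by exact_mod_cast hA0)
    have hm := two_le_order χ hχ
    have hκ1 : 16 * (p : ℝ) ^ (-min δ η) ≤ 1 := by
      calc 16 * (p : ℝ) ^ (-min δ η) ≤ (p : ℝ) ^ (min δ η) * (p : ℝ) ^ (-min δ η) :=
            mul_le_mul_of_nonneg_right (hp₁ p (by omega)) (by positivity)
        _ = 1 := by rw [← Real.rpow_add hp0]; simp
    refine (stat (dk χ) A hm (dk_root χ) hA1 (16 * (p : ℝ) ^ (-min δ η)) (by positivity) hκ1
      (hmain p hp (by omega) A hA χ hχ hFχ) (hzero p hp A hA χ) k Φ hΦ).trans ?_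
    -- the rate
    have hkm : (k : ℝ) ≤ (orderOf χ : ℝ) ^ k := by
      have h6 : k < 2 ^ k := Nat.lt_two_pow_self
      have h7 : k ≤ orderOf χ ^ k := h6.le.trans (Nat.pow_le_pow_left hm _)
      exact_mod_cast h7
    have hsq : Real.sqrt ((orderOf χ : ℝ) ^ k * (16 * (p : ℝ) ^ (-min δ η))) ≤
        4 * (p : ℝ) ^ (-(5 * (min δ η / 12))) := by
      rw [Real.sqrt_le_left (by positivity)]
      calc (orderOf χ : ℝ) ^ k * (16 * (p : ℝ) ^ (-min δ η)) ≤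
          (p : ℝ) ^ (min δ η / 6) * (16 * (p : ℝ) ^ (-min δ η)) := by gcongr
        _ = 16 * ((p : ℝ) ^ (min δ η / 6) * (p : ℝ) ^ (-min δ η)) := by ring
        _ = (4 * (p : ℝ) ^ (-(5 * (min δ η / 12)))) ^ 2 := by
            rw [mul_pow, ← Real.rpow_add hp0, ← Real.rpow_natCast ((p : ℝ) ^ _),
              ← Real.rpow_mul hp0.le]
            norm_num
            congr 1
            ring
    calc 4 * k * Real.sqrt ((orderOf χ : ℝ) ^ k * (16 * (p : ℝ) ^ (-min δ η))) ≤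
        4 * (p : ℝ) ^ (min δ η / 6) * (4 * (p : ℝ) ^ (-(5 * (min δ η / 12)))) := by
          refine mul_le_mul (by linarith [hkm.trans hk]) hsq (Real.sqrt_nonneg _) (by positivity)
      _ = 16 * ((p : ℝ) ^ (min δ η / 6) * (p : ℝ) ^ (-(5 * (min δ η / 12)))) := by ring
      _ ≤ (p : ℝ) ^ (min δ η / 12) *
          ((p : ℝ) ^ (min δ η / 6) * (p : ℝ) ^ (-(5 * (min δ η / 12)))) :=
          mul_le_mul_of_nonneg_right (hp₂ p (by omega)) (by positivity)
      _ = _ := by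
          rw [← Real.rpow_add hp0, ← Real.rpow_add hp0]; congr 1; ring
  · obtain ⟨p₃, hp₃⟩ := large 256 (min δ η / 12) (by positivity)
    refine ⟨p₀ + p₁ + p₂ + p₃, fun p hp hlt A hA χ hχ hFχ k hk => ?_⟩
    have : Fact p.Prime := ⟨hp⟩
    have hp0 : (0 : ℝ) < p := by exact_mod_cast hp.pos
    have hp1 : (1 : ℝ) ≤ p := by exact_mod_cast hp.one_le
    have hA0 : (0 : ℝ) < A.card := (Real.rpow_pos_of_pos hp0 _).trans hA
    have hA1 : A.Nonempty := card_pos.1 (by exact_mod_cast hA0)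
    have hm := two_le_order χ hχ
    have hmr : (2 : ℝ) ≤ orderOf χ := by exact_mod_cast hm
    refine allPatterns (dk χ) A hm (dk_root χ) (dk_diag χ) hA1 (16 * (p : ℝ) ^ (-min δ η))
      (by positivity) (hmain p hp (by omega) A hA χ hχ hFχ) (hzero p hp A hA χ) k ?_
    rcases Nat.eq_zero_or_pos k with rfl | hk0
    · simp
    set w : ℝ := (orderOf χ : ℝ) ^ k with hw
    have hw1 : 1 ≤ w := one_le_pow₀ (by linarith)
    have hkw : (k : ℝ) ≤ w := by
      have h6 : k < 2 ^ k := Nat.lt_two_pow_self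
      have h7 : k ≤ orderOf χ ^ k := h6.le.trans (Nat.pow_le_pow_left hm _)
      rw [hw]
      exact_mod_cast h7
    have hmw : (orderOf χ : ℝ) ≤ w := by
      rw [hw]
      exact le_self_pow₀ (by linarith) (by omega)
    have h2m : (2 * orderOf χ : ℝ) ^ (3 * k) ≤ w ^ 6 := by
      have : (2 * orderOf χ : ℝ) ≤ (orderOf χ : ℝ) ^ 2 := by nlinarith
      calc (2 * orderOf χ : ℝ) ^ (3 * k) ≤ ((orderOf χ : ℝ) ^ 2) ^ (3 * k) :=
            pow_le_pow_left₀ (by positivity) this _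
        _ = w ^ 6 := by rw [hw, ← pow_mul, ← pow_mul]; congr 1; ring
    have hw0 : 0 ≤ w := by linarith
    calc 16 * k * (orderOf χ : ℝ) ^ 3 * (2 * orderOf χ : ℝ) ^ (3 * k) *
          (16 * (p : ℝ) ^ (-min δ η)) ≤
        16 * w * w ^ 3 * w ^ 6 * (16 * (p : ℝ) ^ (-min δ η)) := by gcongr
      _ = 256 * (w ^ 10 * (p : ℝ) ^ (-min δ η)) := by ring
      _ ≤ 256 * (((p : ℝ) ^ (min δ η / 12)) ^ 10 * (p : ℝ) ^ (-min δ η)) := by gcongr
      _ ≤ (p : ℝ) ^ (min δ η / 12) *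
          (((p : ℝ) ^ (min δ η / 12)) ^ 10 * (p : ℝ) ^ (-min δ η)) :=
          mul_le_mul_of_nonneg_right (hp₃ p (by omega)) (by positivity)
      _ = (p : ℝ) ^ (-(min δ η / 12)) := by
          rw [← Real.rpow_natCast ((p : ℝ) ^ (min δ η / 12)), ← Real.rpow_mul hp0.le,
            ← Real.rpow_add hp0, ← Real.rpow_add hp0]
          congr 1
          push_cast
          ring
      _ < 1 := Real.rpow_lt_one_of_one_lt_of_neg (by exact_mod_cast hp.one_lt) (by linarith)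

end Pool.Agent.V7H48.SG
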