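import Pool.Agent.V7H48.SG.Defs
import Pool.Agent.V7H48.SP.Reg

/-!
# Statistics of induced patterns: the chain rule
-/

set_option autoImplicit false

namespace Pool.Agent.V7H48.SG

open Finset Pool.Agent.V7H48.SP

variable {α : Type*}

/-- put a first row in front of a pattern -/
def cp {k : ℕ} (ρ : Fin k → ℂ) (π : Fin k → Fin k → ℂ) : Fin (k + 1) → Fin (k + 1) → ℂ :=
  Fin.cons (Fin.cons 1 ρ) fun i => Fin.cons 1 (π i)

theorem pat_cons (c : α → α → ℂ) {k : ℕ} (x : α) (b : Fin k → α) :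
    pat c (Fin.cons x b) = cp (fun j => c x (b j)) (pat c b) := by
  funext i j
  refine Fin.cases ?_ (fun i => ?_) i <;> refine Fin.cases ?_ (fun j => ?_) j
  · simp [pat, cp]
  · simp [pat, cp]
  · simp [pat, cp]
  · simp [pat, cp]

theorem sum_UP {m k : ℕ} (Φ : (Fin (k + 1) → Fin (k + 1) → ℂ) → ℝ) :
    ∑ σ ∈ UP m (k + 1), Φ σ = ∑ π ∈ UP m k, ∑ ρ ∈ Pat m k, Φ (cp ρ π) := by
  rw [← sum_product']
  symm
  refine sum_nbij' (fun z => cp z.2 z.1) (fun σ => (fun i j => σ i.succ j.succ, fun j => σ 0 j.succ))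
    ?_ ?_ ?_ ?_ ?_
  · rintro ⟨π, ρ⟩ h
    rw [mem_product] at h
    obtain ⟨h1, h2⟩ := h
    simp only [UP, Pat, Fintype.mem_piFinset] at h1 h2 ⊢
    intro i j
    refine Fin.cases ?_ (fun i => ?_) i <;> refine Fin.cases ?_ (fun j => ?_) j
    · simp [cp]
    · simpa [cp] using h2 j
    · simp [cp]
    · simpa [cp] using h1 i j
  · intro σ h
    rw [mem_product]
    simp only [UP, Pat, Fintype.mem_piFinset] at h ⊢
    refine ⟨fun i j => ?_, fun j => ?_⟩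
    · simpa using h i.succ j.succ
    · simpa using h 0 j.succ
  · rintro ⟨π, ρ⟩ _
    simp [cp]
  · intro σ h
    simp only [UP, Fintype.mem_piFinset] at h
    funext i j
    refine Fin.cases ?_ (fun i => ?_) i <;> refine Fin.cases ?_ (fun j => ?_) j
    · have := h 0 0
      simp only [lt_self_iff_false, if_false, mem_singleton] at this
      simp [cp, this]
    · simp [cp]
    · have := h i.succ 0
      simp only [Fin.not_lt_zero, if_false, mem_singleton] at this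
      simp [cp, this]
    · simp [cp]
  · rintro ⟨π, ρ⟩ _
    rfl

theorem sum_tup {k : ℕ} (A : Finset α) (G : (Fin (k + 1) → α) → ℝ) :
    ∑ a ∈ tup A (k + 1), G a = ∑ b ∈ tup A k, ∑ x ∈ A, G (Fin.cons x b) := by
  rw [← sum_product']
  symm
  refine sum_nbij' (fun z => Fin.cons z.2 z.1) (fun a => (Fin.tail a, a 0)) ?_ ?_ ?_ ?_ ?_
  · rintro ⟨b, x⟩ h
    rw [mem_product, Fintype.mem_piFinset] at h
    rw [Fintype.mem_piFinset]
    intro i
    refine Fin.cases ?_ (fun i => ?_) i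
    · simpa using h.2
    · simpa using h.1 i
  · intro a h
    rw [Fintype.mem_piFinset] at h
    rw [mem_product, Fintype.mem_piFinset]
    exact ⟨fun i => h i.succ, h 0⟩
  · rintro ⟨b, x⟩ _
    simp
  · intro a _
    simp
  · rintro ⟨b, x⟩ _
    rfl

theorem pow_card_UP (m k : ℕ) : (m : ℝ) ^ ((k + 1).choose 2) = (m : ℝ) ^ (k.choose 2) * (m : ℝ) ^ k := by
  rw [← pow_add]
  congr 1
  rw [Nat.choose_succ_succ' k 1, Nat.choose_one_right, add_comm]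

/-- one row -/
theorem row (c : α → α → ℂ) (A : Finset α) {m : ℕ} (hm : 0 < m)
    (hc : ∀ a b, c a b = 0 ∨ c a b ^ m = 1) {k : ℕ} (b : Fin k → α) (g : (Fin k → ℂ) → ℝ)
    (hg : ∀ ρ, 0 ≤ g ρ ∧ g ρ ≤ 1) :
    |∑ x ∈ A, g (fun j => c x (b j)) - A.card / (m : ℝ) ^ k * ∑ ρ ∈ Pat m k, g ρ| ≤
      ∑ ρ ∈ Pat m k, |(cnt c A b ρ : ℝ) - nz c A b / (m : ℝ) ^ k| +
        ((A.card : ℝ) - nz c A b) := by
  classical
  have hm0 : (0 : ℝ) < (m : ℝ) ^ k := by positivity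
  set N := A.filter fun x => ∀ i, c x (b i) ≠ 0 with hN
  have hNc : (N.card : ℝ) = nz c A b := by
    rw [nz, ← Set.ncard_coe_finset]
    congr 2
    ext a; simp [hN]
  have hsplit : ∑ x ∈ A, g (fun j => c x (b j)) = ∑ x ∈ N, g (fun j => c x (b j)) +
      ∑ x ∈ A.filter (fun x => ¬ ∀ i, c x (b i) ≠ 0), g (fun j => c x (b j)) :=
    (sum_filter_add_sum_filter_not A _ _).symm
  have h1 : ∑ x ∈ N, g (fun j => c x (b j)) = ∑ ρ ∈ Pat m k, (cnt c A b ρ : ℝ) * g ρ := by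
    have hmap : ∀ x ∈ N, (fun j => c x (b j)) ∈ Pat m k := by
      intro x hx
      rw [mem_Pat hm]
      intro i
      exact (hc x (b i)).resolve_left ((mem_filter.1 hx).2 i)
    rw [← sum_fiberwise_of_maps_to hmap]
    refine sum_congr rfl fun ρ hρ => ?_
    have h2 : ∑ x ∈ N.filter (fun x => (fun j => c x (b j)) = ρ), g (fun j => c x (b j)) =
        ∑ x ∈ N.filter (fun x => (fun j => c x (b j)) = ρ), g ρ :=
      sum_congr rfl fun x hx => by rw [(mem_filter.1 hx).2]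
    rw [h2, sum_const, nsmul_eq_mul]
    congr 2
    rw [cnt, ← Set.ncard_coe_finset]
    congr 1
    ext x
    simp only [coe_filter, Set.mem_setOf_eq, hN, mem_filter]
    constructor
    · rintro ⟨⟨hx, _⟩, h⟩
      exact ⟨hx, fun i => congrFun h i⟩
    · rintro ⟨hx, h⟩
      refine ⟨⟨hx, fun i => ?_⟩, funext h⟩
      rw [h i]
      intro h0
      have := (mem_Pat hm ρ).1 hρ i
      rw [h0, zero_pow hm.ne'] at this
      exact zero_ne_one this
  have hcard : (N.card : ℝ) + (A.filter (fun x => ¬ ∀ i, c x (b i) ≠ 0)).card = A.card := by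
    exact_mod_cast card_filter_add_card_filter_not (s := A) (fun x => ∀ i, c x (b i) ≠ 0)
  have h3 : 0 ≤ ∑ x ∈ A.filter (fun x => ¬ ∀ i, c x (b i) ≠ 0), g (fun j => c x (b j)) :=
    sum_nonneg fun x _ => (hg _).1
  have h4 : ∑ x ∈ A.filter (fun x => ¬ ∀ i, c x (b i) ≠ 0), g (fun j => c x (b j)) ≤
      A.card - nz c A b := by
    calc _ ≤ ∑ x ∈ A.filter (fun x => ¬ ∀ i, c x (b i) ≠ 0), (1 : ℝ) :=
          sum_le_sum fun x _ => (hg _).2
      _ = (A.filter (fun x => ¬ ∀ i, c x (b i) ≠ 0)).card := by simp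
      _ = _ := by rw [← hNc]; linarith
  set S := ∑ ρ ∈ Pat m k, g ρ with hS
  have h5 : 0 ≤ S := sum_nonneg fun ρ _ => (hg ρ).1
  have h6 : S ≤ (m : ℝ) ^ k := by
    calc S ≤ ∑ ρ ∈ Pat m k, (1 : ℝ) := sum_le_sum fun ρ _ => (hg ρ).2
      _ = _ := by rw [sum_const, nsmul_eq_mul, mul_one, card_Pat hm]
  have h7 : (nz c A b : ℝ) ≤ A.card := by exact_mod_cast nz_le c A b
  have h8 : |∑ ρ ∈ Pat m k, ((cnt c A b ρ : ℝ) - nz c A b / (m : ℝ) ^ k) * g ρ| ≤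
      ∑ ρ ∈ Pat m k, |(cnt c A b ρ : ℝ) - nz c A b / (m : ℝ) ^ k| := by
    refine (abs_sum_le_sum_abs _ _).trans (sum_le_sum fun ρ _ => ?_)
    rw [abs_mul, abs_of_nonneg (hg ρ).1]
    exact mul_le_of_le_one_right (abs_nonneg _) (hg ρ).2
  have h9 : ∑ ρ ∈ Pat m k, ((cnt c A b ρ : ℝ) - nz c A b / (m : ℝ) ^ k) * g ρ =
      ∑ ρ ∈ Pat m k, (cnt c A b ρ : ℝ) * g ρ - nz c A b / (m : ℝ) ^ k * S := by
    simp only [sub_mul]
    rw [sum_sub_distrib, ← mul_sum]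
  have h10 : 0 ≤ (A.card - nz c A b : ℝ) / (m : ℝ) ^ k * S := by
    have : (0 : ℝ) ≤ A.card - nz c A b := by linarith
    positivity
  have h11 : (A.card - nz c A b : ℝ) / (m : ℝ) ^ k * S ≤ A.card - nz c A b := by
    rw [div_mul_eq_mul_div, div_le_iff₀ hm0]
    exact mul_le_mul_of_nonneg_left h6 (by linarith)
  have h12 : (A.card : ℝ) / (m : ℝ) ^ k * S =
      nz c A b / (m : ℝ) ^ k * S + (A.card - nz c A b : ℝ) / (m : ℝ) ^ k * S := by
    ring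
  rw [hsplit, h1, h12]
  rw [h9] at h8
  rw [abs_le] at h8 ⊢
  constructor
  · linarith
  · linarith

/-- the error of one row, on average -/
theorem row_mean (c : α → α → ℂ) (A : Finset α) {m : ℕ} (hm : 0 < m)
    (hc : ∀ a b, c a b = 0 ∨ c a b ^ m = 1) (hA : A.Nonempty) (κ z : ℝ) (hκ : 0 ≤ κ)
    (H : ∀ j ∈ Ico 1 m, ∀ v : α → ℂ, (∀ a, ‖v a‖ ≤ 1) →
      ∑ x ∈ A, ‖∑ a ∈ A, v a * c a x ^ j‖ ^ 2 ≤ κ * (A.card : ℝ) ^ 2 * A.card)
    (Z : ∑ x ∈ A, (zr c A x : ℝ) ≤ z * A.card * A.card) (k : ℕ) :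
    ∑ b ∈ tup A k, (∑ ρ ∈ Pat m k, |(cnt c A b ρ : ℝ) - nz c A b / (m : ℝ) ^ k| +
        ((A.card : ℝ) - nz c A b)) ≤
      (Real.sqrt ((m : ℝ) ^ k * κ) + k * z) * (A.card : ℝ) ^ (k + 1) := by
  classical
  have hA0 : (0 : ℝ) < A.card := by exact_mod_cast hA.card_pos
  rw [sum_add_distrib, add_mul]
  refine add_le_add ?_ ?_
  · have h1 := second c A A hm hc (κ * (A.card : ℝ) ^ 2) (by positivity) H k
    rw [← sum_product'] at h1 ⊢
    have h2 : (∑ z ∈ tup A k ×ˢ Pat m k, |(cnt c A z.1 z.2 : ℝ) - nz c A z.1 / (m : ℝ) ^ k|) ^ 2 ≤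
        (tup A k ×ˢ Pat m k).card *
          ∑ z ∈ tup A k ×ˢ Pat m k, |(cnt c A z.1 z.2 : ℝ) - nz c A z.1 / (m : ℝ) ^ k| ^ 2 :=
      sq_sum_le_card_mul_sum_sq
    simp only [sq_abs] at h2
    have h3 : ((tup A k ×ˢ Pat m k).card : ℝ) = (A.card : ℝ) ^ k * (m : ℝ) ^ k := by
      rw [card_product]
      push_cast
      rw [card_tup, card_Pat hm]
    rw [h3] at h2
    refine (abs_le_of_sq_le_sq' (h2.trans ?_) (by positivity)).2
    calc _ ≤ (A.card : ℝ) ^ k * (m : ℝ) ^ k * (κ * (A.card : ℝ) ^ 2 * (A.card : ℝ) ^ k) := by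
          gcongr
      _ = _ := by
          rw [mul_pow, Real.sq_sqrt (by positivity)]
          ring
  · have h1 : ∀ b ∈ tup A k, (A.card : ℝ) - nz c A b ≤ ∑ i, (zr c A (b i) : ℝ) :=
      fun b _ => zeros_along c A b
    refine (sum_le_sum h1).trans ?_
    rw [sum_comm]
    have h2 : ∀ i ∈ (univ : Finset (Fin k)), ∑ b ∈ tup A k, (zr c A (b i) : ℝ) ≤
        z * (A.card : ℝ) ^ (k + 1) := by
      intro i _
      have h3 := sum_coord A (fun x => (zr c A x : ℝ)) i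
      have h4 : A.card * ∑ b ∈ tup A k, (zr c A (b i) : ℝ) ≤
          (A.card : ℝ) * (z * (A.card : ℝ) ^ (k + 1)) := by
        rw [h3]
        calc (A.card : ℝ) ^ k * ∑ x ∈ A, (zr c A x : ℝ) ≤
            (A.card : ℝ) ^ k * (z * A.card * A.card) := by gcongr
          _ = _ := by ring
      exact le_of_mul_le_mul_left h4 hA0
    calc _ ≤ ∑ i : Fin k, z * (A.card : ℝ) ^ (k + 1) := sum_le_sum h2
      _ = _ := by rw [sum_const, card_univ, Fintype.card_fin, nsmul_eq_mul]; ring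

/-- **The chain rule.** -/
theorem chain (c : α → α → ℂ) (A : Finset α) {m : ℕ} (hm : 0 < m)
    (hc : ∀ a b, c a b = 0 ∨ c a b ^ m = 1) (hA : A.Nonempty) (κ z : ℝ) (hκ : 0 ≤ κ)
    (H : ∀ j ∈ Ico 1 m, ∀ v : α → ℂ, (∀ a, ‖v a‖ ≤ 1) →
      ∑ x ∈ A, ‖∑ a ∈ A, v a * c a x ^ j‖ ^ 2 ≤ κ * (A.card : ℝ) ^ 2 * A.card)
    (Z : ∑ x ∈ A, (zr c A x : ℝ) ≤ z * A.card * A.card) (k : ℕ) :
    ∀ Φ : (Fin k → Fin k → ℂ) → ℝ, (∀ σ, 0 ≤ Φ σ ∧ Φ σ ≤ 1) →
      |∑ a ∈ tup A k, Φ (pat c a) - (A.card : ℝ) ^ k / (m : ℝ) ^ (k.choose 2) *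
        ∑ σ ∈ UP m k, Φ σ| ≤
          (∑ i ∈ range k, (Real.sqrt ((m : ℝ) ^ i * κ) + i * z)) * (A.card : ℝ) ^ k := by
  classical
  have hA0 : (0 : ℝ) < A.card := by exact_mod_cast hA.card_pos
  induction k with
  | zero =>
    intro Φ _
    have h1 : tup A 0 = {Fin.elim0} := by
      ext a
      simp only [mem_singleton, Fintype.mem_piFinset]
      exact ⟨fun _ => Subsingleton.elim _ _, fun _ i => i.elim0⟩
    have h2 : UP m 0 = {fun i => i.elim0} := by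
      ext a
      simp only [UP, mem_singleton, Fintype.mem_piFinset]
      exact ⟨fun _ => Subsingleton.elim _ _, fun _ i => i.elim0⟩
    rw [h1, h2]
    simp only [sum_singleton]
    have h3 : pat c (Fin.elim0 : Fin 0 → α) = fun i => i.elim0 := Subsingleton.elim _ _
    rw [h3]
    simp
  | succ k ih =>
    intro Φ hΦ
    have hm0 : (0 : ℝ) < (m : ℝ) ^ k := by positivity
    rw [sum_tup, sum_UP]
    simp only [pat_cons]
    set Ψ : (Fin k → Fin k → ℂ) → ℝ := fun π => (∑ ρ ∈ Pat m k, Φ (cp ρ π)) / (m : ℝ) ^ k with hΨ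
    have hΨ1 : ∀ π, 0 ≤ Ψ π ∧ Ψ π ≤ 1 := by
      intro π
      refine ⟨div_nonneg (sum_nonneg fun ρ _ => (hΦ _).1) hm0.le, ?_⟩
      rw [hΨ]
      simp only
      rw [div_le_one hm0]
      calc ∑ ρ ∈ Pat m k, Φ (cp ρ π) ≤ ∑ ρ ∈ Pat m k, (1 : ℝ) := sum_le_sum fun ρ _ => (hΦ _).2
        _ = _ := by rw [sum_const, nsmul_eq_mul, mul_one, card_Pat hm]
    have h1 := ih Ψ hΨ1
    have h2 : |∑ b ∈ tup A k, ∑ x ∈ A, Φ (cp (fun j => c x (b j)) (pat c b)) -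
        A.card * ∑ b ∈ tup A k, Ψ (pat c b)| ≤
          (Real.sqrt ((m : ℝ) ^ k * κ) + k * z) * (A.card : ℝ) ^ (k + 1) := by
      refine le_trans ?_ (row_mean c A hm hc hA κ z hκ H Z k)
      rw [mul_sum, ← sum_sub_distrib]
      refine (abs_sum_le_sum_abs _ _).trans (sum_le_sum fun b _ => ?_)
      have h3 := row c A hm hc b (fun ρ => Φ (cp ρ (pat c b))) fun ρ => hΦ _
      refine le_trans (le_of_eq ?_) h3
      congr 2
      rw [hΨ]
      simp only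
      ring
    have h3 : (A.card : ℝ) ^ (k + 1) / (m : ℝ) ^ ((k + 1).choose 2) *
        ∑ π ∈ UP m k, ∑ ρ ∈ Pat m k, Φ (cp ρ π) =
        A.card * ((A.card : ℝ) ^ k / (m : ℝ) ^ (k.choose 2) * ∑ σ ∈ UP m k, Ψ σ) := by
      rw [pow_card_UP, hΨ]
      simp only
      rw [← sum_div, pow_succ]
      have : (m : ℝ) ^ (k.choose 2) ≠ 0 := by positivity
      field_simp
    rw [h3, sum_range_succ, add_mul]
    calc _ ≤ |∑ b ∈ tup A k, ∑ x ∈ A, Φ (cp (fun j => c x (b j)) (pat c b)) -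
        A.card * ∑ b ∈ tup A k, Ψ (pat c b)| + |A.card * ∑ b ∈ tup A k, Ψ (pat c b) -
          A.card * ((A.card : ℝ) ^ k / (m : ℝ) ^ (k.choose 2) * ∑ σ ∈ UP m k, Ψ σ)| :=
          abs_sub_le _ _ _
      _ ≤ (Real.sqrt ((m : ℝ) ^ k * κ) + k * z) * (A.card : ℝ) ^ (k + 1) +
          A.card * ((∑ i ∈ range k, (Real.sqrt ((m : ℝ) ^ i * κ) + i * z)) * (A.card : ℝ) ^ k) := by
          refine add_le_add h2 ?_
          rw [← mul_sub, abs_mul, abs_of_pos hA0]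
          exact mul_le_mul_of_nonneg_left h1 hA0.le
      _ = _ := by ring

/-- **Statistics.** -/
theorem stat (c : α → α → ℂ) (A : Finset α) {m : ℕ} (hm : 2 ≤ m)
    (hc : ∀ a b, c a b = 0 ∨ c a b ^ m = 1) (hA : A.Nonempty) (κ : ℝ) (hκ : 0 ≤ κ) (hκ1 : κ ≤ 1)
    (H : ∀ j ∈ Ico 1 m, ∀ v : α → ℂ, (∀ a, ‖v a‖ ≤ 1) →
      ∑ x ∈ A, ‖∑ a ∈ A, v a * c a x ^ j‖ ^ 2 ≤ κ * (A.card : ℝ) ^ 2 * A.card)
    (Z : ∑ x ∈ A, (zr c A x : ℝ) ≤ κ * A.card * A.card) (k : ℕ) :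
    Stat c A m k (4 * k * Real.sqrt ((m : ℝ) ^ k * κ)) := by
  intro Φ hΦ
  have hA0 : (0 : ℝ) < A.card := by exact_mod_cast hA.card_pos
  have hm0 : 0 < m := by omega
  have hmr : (1 : ℝ) ≤ m := by exact_mod_cast (by omega : 1 ≤ m)
  have hAk : (0 : ℝ) < (A.card : ℝ) ^ k := by positivity
  have h1 := chain c A hm0 hc hA κ κ hκ H Z k Φ hΦ
  have h2 : ∑ i ∈ range k, (Real.sqrt ((m : ℝ) ^ i * κ) + i * κ) ≤
      4 * k * Real.sqrt ((m : ℝ) ^ k * κ) := by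
    have h3 : ∀ i ∈ range k, Real.sqrt ((m : ℝ) ^ i * κ) + i * κ ≤
        4 * Real.sqrt ((m : ℝ) ^ k * κ) := by
      intro i hi
      have hik : i ≤ k := (mem_range.1 hi).le
      have h4 : Real.sqrt ((m : ℝ) ^ i * κ) ≤ Real.sqrt ((m : ℝ) ^ k * κ) :=
        Real.sqrt_le_sqrt (mul_le_mul_of_nonneg_right (pow_le_pow_right₀ hmr hik) hκ)
      have h5 : (i : ℝ) * κ ≤ 3 * Real.sqrt ((m : ℝ) ^ i * κ) := by
        have h6 : (i : ℝ) ≤ 3 * Real.sqrt ((m : ℝ) ^ i) := by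
          have h7 : ∀ n : ℕ, n ^ 2 ≤ 9 * 2 ^ n := by
            intro n
            induction n with
            | zero => norm_num
            | succ n ihn =>
              rcases Nat.lt_or_ge n 3 with h | h
              · interval_cases n <;> norm_num
              · have : (n + 1) ^ 2 ≤ 2 * n ^ 2 := by nlinarith
                calc (n + 1) ^ 2 ≤ 2 * n ^ 2 := this
                  _ ≤ 2 * (9 * 2 ^ n) := Nat.mul_le_mul_left 2 ihn
                  _ = _ := by ring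
          have h8 : (i : ℝ) ^ 2 ≤ 9 * (m : ℝ) ^ i := by
            have h9 : i ^ 2 ≤ 9 * m ^ i := (h7 i).trans (Nat.mul_le_mul_left 9 (Nat.pow_le_pow_left hm i))
            exact_mod_cast h9
          refine (abs_le_of_sq_le_sq' ?_ (by positivity)).2
          rw [mul_pow, Real.sq_sqrt (by positivity)]
          linarith
        have h7 : κ ≤ Real.sqrt κ := Real.le_sqrt_of_sq_le (by nlinarith)
        rw [Real.sqrt_mul (by positivity)]
        calc (i : ℝ) * κ ≤ (3 * Real.sqrt ((m : ℝ) ^ i)) * Real.sqrt κ := by gcongr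
          _ = _ := by ring
      linarith
    calc _ ≤ ∑ i ∈ range k, 4 * Real.sqrt ((m : ℝ) ^ k * κ) := sum_le_sum h3
      _ = _ := by rw [sum_const, card_range, nsmul_eq_mul]; ring
  have h3 : (∑ a ∈ tup A k, Φ (pat c a)) / (A.card : ℝ) ^ k -
      (∑ σ ∈ UP m k, Φ σ) / (m : ℝ) ^ (k.choose 2) =
      (∑ a ∈ tup A k, Φ (pat c a) - (A.card : ℝ) ^ k / (m : ℝ) ^ (k.choose 2) *
        ∑ σ ∈ UP m k, Φ σ) / (A.card : ℝ) ^ k := by
    field_simp
  rw [h3, abs_div, abs_of_pos hAk, div_le_iff₀ hAk]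
  exact h1.trans (mul_le_mul_of_nonneg_right h2 hAk.le)

end Pool.Agent.V7H48.SG
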